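import Mathlib

/-!
Row Cla (MP_9924a2_lc, about 150 lines): the classes in `L` which become `p`-th powers in the fixed field of a normal subgroup.

PROOF.  An element `u : Ω` lies in `L` if `τ u = u` for all `τ : Ω ≃ₐ[K] Ω` which fix `L` pointwise (`InfiniteGalois.fixedField_fixingSubgroup`, `IntermediateField.mem_fixedField_iff`, `IntermediateField.mem_fixingSubgroup_iff`).  `L` is normal: `τ x ∈ L` for `x ∈ L` and every `τ` (`IntermediateField.normal_iff_forall_map_le'`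
or `AlgEquiv.restrictNormal_commutes`).  Let `τ` fix `L` pointwise, `τ' = σ⁻¹ τ σ` (as functions `σ τ' = τ σ`): `τ'` fixes `L` pointwise too.  `a = τ⁻¹ σ⁻¹ τ σ ∈ N` (`N` normal) fixes `L` pointwise, and `τ' = τ a`.
`cla_mul`: `u = σ z / z`.  `a z = z` (`hN`), so `τ' z = τ z`, `τ (σ z) = σ (τ' z) = σ (τ z)`.  `(τ z)^p = τ (z^p) = z^p`, so `τ z = η z`, `η ^ p = 1`, `η` a power of `ζ`, so `σ η = η`; `τ u = σ (η z) / (η z) = u`.  `u ^ p = σ (z ^ p) / z ^ p`.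
`cla_add`: `u = σ z - z`; `τ z = z + η` with `η ^ p = η` (`℘` additive: `sub_pow_char`), so `η` is in the prime field (at most `p` roots of `X ^ p - X`, which are the images of `Nat.cast`; see e.g. `FiniteField`/`ZMod` lemmas; only `σ η = η` is needed), `τ u = σ (z + η) - (z + η) = u`.
`clb_mul` (`N` abelian, no condition on `z`): `u = σ z / z`, `v = σ u / u`.  Put `b = σ⁻¹ τ σ τ⁻¹ ∈ N`, it fixes `L` pointwise, `τ σ = σ b τ`.  `τ z = η z`, `b z = η' z` with `η ^ p = η' ^ p = 1`, both in `L` (powers of `ζ`), fixed by `σ` and by `b`.  `τ (σ z) = σ (b (η z)) = η η' σ z`, so `τ u = η' u`.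
 `b u = b (σ z) / b z = σ (b z) / b z = σ (η' z) / (η' z) = u` (`b σ = σ b`).  `τ (σ u) = σ (b (τ u)) = σ (b (η' u)) = η' σ u`.  So `τ v = v`.  `v ^ p = σ (u^p) / u^p` and `u ^ p = σ (z^p) / z^p`.
`clb_add`: the same additively (`τ z = z + η`, `b z = z + η'`, `τ u = u + η'`, `b u = u`, `τ v = v`).
-/

set_option autoImplicit false

namespace Pool.Agent.H43.SG

universe u

variable {K Ω : Type u} [Field K] [Field Ω] [Algebra K Ω] [IsGalois K Ω]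
  (N : Subgroup (Ω ≃ₐ[K] Ω)) [N.Normal] (L : IntermediateField K Ω) [Normal K L]
  {σ : Ω ≃ₐ[K] Ω} {p : ℕ}

omit [N.Normal] in
private theorem Cla_mem (L : IntermediateField K Ω) {u : Ω}
    (h : ∀ τ : Ω ≃ₐ[K] Ω, (∀ x ∈ L, τ x = x) → τ u = u) : u ∈ L := by
  rw [← InfiniteGalois.fixedField_fixingSubgroup L, IntermediateField.mem_fixedField_iff]
  intro τ hτ
  exact h τ ((IntermediateField.mem_fixingSubgroup_iff L τ).1 hτ)

private theorem Cla_map (τ : Ω ≃ₐ[K] Ω) {x : Ω} (hx : x ∈ L) : τ x ∈ L := by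
  have h := (IntermediateField.normal_iff_forall_map_le' (F := K) (L := Ω) (K := L)).1
    inferInstance τ
  exact h ⟨x, hx, rfl⟩

private theorem Cla_conj (σ : Ω ≃ₐ[K] Ω) {τ : Ω ≃ₐ[K] Ω} (hτ : ∀ x ∈ L, τ x = x) :
    ∀ x ∈ L, (σ⁻¹ * τ * σ) x = x := by
  intro x hx
  have h1 : τ (σ x) = σ x := hτ _ (Cla_map L σ hx)
  show σ⁻¹ (τ (σ x)) = x
  rw [h1]
  exact σ.symm_apply_apply x

omit [IsGalois K Ω] [Normal K L] in
private theorem Cla_inv {τ : Ω ≃ₐ[K] Ω} (hτ : ∀ x ∈ L, τ x = x) :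
    ∀ x ∈ L, τ⁻¹ x = x := by
  intro x hx
  have h1 : τ x = x := hτ _ hx
  calc τ⁻¹ x = τ⁻¹ (τ x) := by rw [h1]
    _ = x := τ.symm_apply_apply x

omit [IsGalois K Ω] [Normal K L] in
private theorem Cla_root {p : ℕ} (hp : p.Prime) {ζ : Ω} (hζL : ζ ∈ L) (hζσ : σ ζ = ζ)
    (hζ : IsPrimitiveRoot ζ p) {z : Ω} (hz0 : z ≠ 0) (hz : z ^ p ∈ L) {τ : Ω ≃ₐ[K] Ω}
    (hτ : ∀ x ∈ L, τ x = x) : ∃ η ∈ L, η ≠ 0 ∧ σ η = η ∧ τ z = η * z := by
  have hp0 : NeZero p := ⟨hp.ne_zero⟩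
  have h1 : (τ z / z) ^ p = 1 := by
    rw [div_pow, ← map_pow, hτ _ hz, div_self (pow_ne_zero _ hz0)]
  obtain ⟨i, -, hi⟩ := hζ.eq_pow_of_pow_eq_one h1
  refine ⟨ζ ^ i, pow_mem hζL i, ?_, ?_, ?_⟩
  · exact pow_ne_zero _ (hζ.ne_zero hp.ne_zero)
  · rw [map_pow, hζσ]
  · rw [hi, div_mul_cancel₀ _ hz0]

omit [IsGalois K Ω] [Normal K L] in
private theorem Cla_rootA {p : ℕ} (hp : p.Prime) [CharP K p] {z : Ω} (hz : z ^ p - z ∈ L)
    {τ : Ω ≃ₐ[K] Ω} (hτ : ∀ x ∈ L, τ x = x) :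
    ∃ η ∈ L, (∀ ρ : Ω ≃ₐ[K] Ω, ρ η = η) ∧ τ z = z + η := by
  have : Fact p.Prime := ⟨hp⟩
  have : CharP Ω p := charP_of_injective_algebraMap (algebraMap K Ω).injective p
  have h1 : (τ z - z) ^ p = τ z - z := by
    have h2 : τ (z ^ p - z) = z ^ p - z := hτ _ hz
    rw [map_sub, map_pow] at h2
    rw [sub_pow_char]
    linear_combination h2
  have h3 := (Subfield.mem_bot_iff_pow_eq_self (F := Ω) (p := p) (x := τ z - z)).2 h1
  rw [mem_bot_iff_intCast p Ω] at h3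
  obtain ⟨n, hn⟩ := h3
  refine ⟨(n : Ω), intCast_mem L n, fun ρ => map_intCast ρ n, ?_⟩
  rw [hn]
  ring

theorem cla_mul (hσ : σ ∈ N) (hp : p.Prime) {ζ : Ω} (hζL : ζ ∈ L) (hζσ : σ ζ = ζ)
    (hζ : IsPrimitiveRoot ζ p) {z : Ω} (hz0 : z ≠ 0) (hz : z ^ p ∈ L)
    (hN : ∀ h ∈ N, (∀ x ∈ L, h x = x) → h z = z) :
    ∃ u ∈ L, u ≠ 0 ∧ σ (z ^ p) / z ^ p = u ^ p := by
  have hσz : σ z ≠ 0 := by
    intro h
    exact hz0 ((map_eq_zero σ).1 h)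
  refine ⟨σ z / z, ?_, div_ne_zero hσz hz0, by rw [map_pow, div_pow]⟩
  apply Cla_mem L
  intro τ hτ
  obtain ⟨η, -, hη0, hησ, hη⟩ := Cla_root L hp hζL hζσ hζ hz0 hz hτ
  have ha : τ⁻¹ * σ⁻¹ * τ * σ ∈ N := by
    have h1 : τ⁻¹ * σ⁻¹ * (τ⁻¹)⁻¹ ∈ N :=
      (inferInstance : N.Normal).conj_mem _ (N.inv_mem hσ) τ⁻¹
    rw [inv_inv] at h1
    exact N.mul_mem h1 hσ
  have haz : (τ⁻¹ * σ⁻¹ * τ * σ) z = z := by
    apply hN _ ha
    intro x hx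
    have h1 := Cla_conj L σ hτ x hx
    have h2 := Cla_inv L hτ x hx
    have h3 : (τ⁻¹ * σ⁻¹ * τ * σ) x = τ⁻¹ ((σ⁻¹ * τ * σ) x) := by
      simp only [AlgEquiv.mul_apply]
    rw [h3, h1, h2]
  have h4 : τ (σ z) = σ (τ z) := by
    have h5 : τ (σ z) = (σ * τ * (τ⁻¹ * σ⁻¹ * τ * σ)) z := by
      have : σ * τ * (τ⁻¹ * σ⁻¹ * τ * σ) = τ * σ := by group
      rw [this, AlgEquiv.mul_apply]
    rw [h5, AlgEquiv.mul_apply, haz, AlgEquiv.mul_apply]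
  rw [map_div₀, h4, hη, map_mul, hησ, mul_div_mul_left _ _ hη0]

theorem cla_add (hσ : σ ∈ N) (hp : p.Prime) [CharP K p] {z : Ω} (hz : z ^ p - z ∈ L)
    (hN : ∀ h ∈ N, (∀ x ∈ L, h x = x) → h z = z) :
    ∃ u ∈ L, σ (z ^ p - z) - (z ^ p - z) = u ^ p - u := by
  have : Fact p.Prime := ⟨hp⟩
  have : CharP Ω p := charP_of_injective_algebraMap (algebraMap K Ω).injective p
  refine ⟨σ z - z, ?_, by rw [map_sub, map_pow, sub_pow_char]; ring⟩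
  apply Cla_mem L
  intro τ hτ
  obtain ⟨η, -, hησ, hη⟩ := Cla_rootA L hp hz hτ
  have ha : τ⁻¹ * σ⁻¹ * τ * σ ∈ N := by
    have h1 : τ⁻¹ * σ⁻¹ * (τ⁻¹)⁻¹ ∈ N :=
      (inferInstance : N.Normal).conj_mem _ (N.inv_mem hσ) τ⁻¹
    rw [inv_inv] at h1
    exact N.mul_mem h1 hσ
  have haz : (τ⁻¹ * σ⁻¹ * τ * σ) z = z := by
    apply hN _ ha
    intro x hx
    have h1 := Cla_conj L σ hτ x hx
    have h2 := Cla_inv L hτ x hx
    have h3 : (τ⁻¹ * σ⁻¹ * τ * σ) x = τ⁻¹ ((σ⁻¹ * τ * σ) x) := by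
      simp only [AlgEquiv.mul_apply]
    rw [h3, h1, h2]
  have h4 : τ (σ z) = σ (τ z) := by
    have h5 : τ (σ z) = (σ * τ * (τ⁻¹ * σ⁻¹ * τ * σ)) z := by
      have : σ * τ * (τ⁻¹ * σ⁻¹ * τ * σ) = τ * σ := by group
      rw [this, AlgEquiv.mul_apply]
    rw [h5, AlgEquiv.mul_apply, haz, AlgEquiv.mul_apply]
  rw [map_sub, h4, hη, map_add, hησ]
  ring

theorem clb_mul (hab : ∀ a ∈ N, ∀ b ∈ N, a * b = b * a) (hσ : σ ∈ N) (hp : p.Prime) {ζ : Ω}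
    (hζL : ζ ∈ L) (hζσ : σ ζ = ζ) (hζ : IsPrimitiveRoot ζ p) {z : Ω} (hz0 : z ≠ 0)
    (hz : z ^ p ∈ L) :
    ∃ v ∈ L, v ≠ 0 ∧ σ (σ (z ^ p) / z ^ p) / (σ (z ^ p) / z ^ p) = v ^ p := by
  have hσz : σ z ≠ 0 := by
    intro h
    exact hz0 ((map_eq_zero σ).1 h)
  have hσσz : σ (σ z) ≠ 0 := by
    intro h
    exact hσz ((map_eq_zero σ).1 h)
  refine ⟨σ (σ z / z) / (σ z / z), ?_, ?_, ?_⟩
  rotate_left
  · rw [map_div₀]
    exact div_ne_zero (div_ne_zero hσσz hσz) (div_ne_zero hσz hz0)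
  · simp only [map_div₀, map_pow, div_pow]
  apply Cla_mem L
  intro τ hτ
  have hb : σ⁻¹ * (τ * σ * τ⁻¹) ∈ N :=
    N.mul_mem (N.inv_mem hσ) ((inferInstance : N.Normal).conj_mem _ hσ τ)
  obtain ⟨b, hbdef⟩ : ∃ b : Ω ≃ₐ[K] Ω, b = σ⁻¹ * (τ * σ * τ⁻¹) := ⟨_, rfl⟩
  rw [← hbdef] at hb
  have hbL : ∀ x ∈ L, b x = x := by
    intro x hx
    have h2 := Cla_inv L hτ x hx
    have h1 := Cla_conj L σ hτ x hx
    have h3 : b x = (σ⁻¹ * τ * σ) (τ⁻¹ x) := by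
      rw [hbdef]
      simp only [AlgEquiv.mul_apply]
    rw [h3, h2, h1]
  have hcom : ∀ x, τ (σ x) = σ (b (τ x)) := by
    intro x
    have : τ * σ = σ * b * τ := by rw [hbdef]; group
    have h5 : τ (σ x) = (τ * σ) x := rfl
    rw [h5, this, AlgEquiv.mul_apply, AlgEquiv.mul_apply]
  have hbσ : ∀ x, b (σ x) = σ (b x) := by
    intro x
    have h5 : b (σ x) = (b * σ) x := rfl
    rw [h5, hab b hb σ hσ, AlgEquiv.mul_apply]
  obtain ⟨η, hηL, hη0, hησ, hη⟩ := Cla_root L hp hζL hζσ hζ hz0 hz hτ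
  obtain ⟨η', hηL', hη0', hησ', hη'⟩ := Cla_root L hp hζL hζσ hζ hz0 hz hbL
  obtain ⟨u, hu⟩ : ∃ u : Ω, u = σ z / z := ⟨_, rfl⟩
  have hu0 : u ≠ 0 := by rw [hu]; exact div_ne_zero hσz hz0
  have h1 : τ (σ z) = η * η' * σ z := by
    rw [hcom, hη, map_mul b, hbL _ hηL, hη', map_mul, map_mul, hησ, hησ']
    ring
  have h2 : τ u = η' * u := by
    rw [hu, map_div₀, h1, hη]
    field_simp
  have h3 : b u = u := by
    rw [hu, map_div₀, hbσ, hη', map_mul, hησ', mul_div_mul_left _ _ hη0']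
  have h4 : τ (σ u) = η' * σ u := by
    rw [hcom, h2, map_mul b, hbL _ hηL', h3, map_mul, hησ']
  rw [← hu, map_div₀, h4, h2, mul_div_mul_left _ _ hη0']

theorem clb_add (hab : ∀ a ∈ N, ∀ b ∈ N, a * b = b * a) (hσ : σ ∈ N) (hp : p.Prime) [CharP K p]
    {z : Ω} (hz : z ^ p - z ∈ L) :
    ∃ v ∈ L, σ (σ (z ^ p - z) - (z ^ p - z)) - (σ (z ^ p - z) - (z ^ p - z)) = v ^ p - v := by
  have : Fact p.Prime := ⟨hp⟩
  have : CharP Ω p := charP_of_injective_algebraMap (algebraMap K Ω).injective p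
  refine ⟨σ (σ z - z) - (σ z - z), ?_, ?_⟩
  rotate_left
  · simp only [map_sub, map_pow, sub_pow_char]
    ring
  apply Cla_mem L
  intro τ hτ
  have hb : σ⁻¹ * (τ * σ * τ⁻¹) ∈ N :=
    N.mul_mem (N.inv_mem hσ) ((inferInstance : N.Normal).conj_mem _ hσ τ)
  obtain ⟨b, hbdef⟩ : ∃ b : Ω ≃ₐ[K] Ω, b = σ⁻¹ * (τ * σ * τ⁻¹) := ⟨_, rfl⟩
  rw [← hbdef] at hb
  have hbL : ∀ x ∈ L, b x = x := by
    intro x hx
    have h2 := Cla_inv L hτ x hx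
    have h1 := Cla_conj L σ hτ x hx
    have h3 : b x = (σ⁻¹ * τ * σ) (τ⁻¹ x) := by
      rw [hbdef]
      simp only [AlgEquiv.mul_apply]
    rw [h3, h2, h1]
  have hcom : ∀ x, τ (σ x) = σ (b (τ x)) := by
    intro x
    have : τ * σ = σ * b * τ := by rw [hbdef]; group
    have h5 : τ (σ x) = (τ * σ) x := rfl
    rw [h5, this, AlgEquiv.mul_apply, AlgEquiv.mul_apply]
  have hbσ : ∀ x, b (σ x) = σ (b x) := by
    intro x
    have h5 : b (σ x) = (b * σ) x := rfl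
    rw [h5, hab b hb σ hσ, AlgEquiv.mul_apply]
  obtain ⟨η, hηL, hησ, hη⟩ := Cla_rootA L hp hz hτ
  obtain ⟨η', hηL', hησ', hη'⟩ := Cla_rootA L hp hz hbL
  obtain ⟨u, hu⟩ : ∃ u : Ω, u = σ z - z := ⟨_, rfl⟩
  have h1 : τ (σ z) = σ z + η + η' := by
    rw [hcom, hη, map_add b, hησ, hη', map_add, map_add, hησ, hησ']
    ring
  have h2 : τ u = u + η' := by
    rw [hu, map_sub, h1, hη]
    ring
  have h3 : b u = u := by
    rw [hu, map_sub, hbσ, hη', map_add, hησ']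
    ring
  have h4 : τ (σ u) = σ u + η' := by
    rw [hcom, h2, map_add b, hησ', h3, map_add, hησ']
  rw [← hu, map_sub, h4, h2]
  ring

end Pool.Agent.H43.SG
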