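import Pool.Agent.H43.SG.Df

/-!
Row Cnn (MP_9924a2_lc, about 150 lines): connectedness of the additive and the multiplicative group of a finite extension
of a stable field.  `Gen`, `Cls`, `Cls.biUnion`, `Cls.gen_union`, `Cls.gen_biUnion`, `Cls.not_gen_or`, `gen_univ`: Pool/Agent/H7/ST/B.lean;
`Dfn.preimage`, `dfn_affine`, `noLadder_affine`, `A_transport`: Pool/Agent/H7/ST/A.lean.

PROOF.
`cls_DL`: compl, union: `Set.Definable.compl`, `.union` (the preimage commutes with complement and union).  aff: in coordinates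
 `e.equivFun.symm x = y`: `c • y + a ∈ X` iff `c • x + e.equivFun a` is in the coordinate set of `X`: `dfn_affine`.  lad: transport
 (`A_transport` with `f = e.equivFun`, `g = (c, a) ↦ (c, e.equivFun a)`) of `noLadder_affine`.
`con_add`: put `X = H`.  The translates `c + H`, `c ∈ S`, cover `L`: `H` is generic (`Gen`: `F = S`).  If `x ∉ H` then `x + H ⊆ Hᶜ`; the
 complement is generic: for `y : L` take `c ∈ S` with `y - x - c ∈ H`...: `F = S.image (fun c => c - x)`: for `y` take `c ∈ S` with `y - c ∈ H`; then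
 `y - (c - x) = (y - c) + x ∉ H`.  Contradiction to `Cls.not_gen_or`.
`con_mul`: put `X = {x | ∃ u ∈ H, (u : L) = x}` and `X_c = {x | c⁻¹ * x ∈ X}` for `c : Lˣ`; `X_c ∈ DL e` (`Dfn.preimage`, the coordinates of `c⁻¹ * x` are
 linear in those of `x`: `e.repr (∑ x_i • (c⁻¹ * e i))`; PolyFun.sum, PolyFun.mul, PolyFun.const, PolyFun.coord).  `Y = ⋃_{c ∈ S} X_c ∈ DL e` (`Cls.biUnion`), its complement is
 `{0}` (or empty), which is not generic since `L` is infinite (`Gen {0}` gives `L ⊆ F` finite).  So by `gen_union` (`Y ∪ Yᶜ = univ`) `Y` is generic and by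
 `gen_biUnion` some `X_c` is generic.  For `d : Lˣ`: `X_d` is generic: the image of a finite set of translates under `x ↦ d c⁻¹ x`
 (`F' = F.image (fun f => d * c⁻¹ * f)`).  If `H ≠ ⊤`, take `d ∉ H`: `X_1 = X` and `X_d` are disjoint (`h = d h'` gives `d ∈ H`), so
 `X` and `Xᶜ` are generic: contradiction to `Cls.not_gen_or`.
-/

set_option autoImplicit false

namespace Pool.Agent.H43.SG

open Pool.Agent.H7.ST

universe u v

variable {k : Type u} [Field k] [FirstOrder.Ring.CompatibleRing k] {n : ℕ}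

theorem cls_DL (hk : StableField k) {L : Type v} [AddCommGroup L] [Module k L]
    (e : Module.Basis (Fin n) k L) : Cls k (DL e) where
  compl X hX := Set.Definable.compl hX
  union X hX Y hY := Set.Definable.union hX hY
  aff X hX c a := by
    have h := dfn_affine (X := {x : Fin n → k | e.equivFun.symm x ∈ X}) hX c (e.equivFun a)
    have h2 : {x : Fin n → k | c • x + e.equivFun a ∈ {x : Fin n → k | e.equivFun.symm x ∈ X}} =
        {x : Fin n → k | e.equivFun.symm x ∈ {y | c • y + a ∈ X}} := by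
      ext x
      simp only [Set.mem_ofPred_eq, map_add, map_smul, LinearEquiv.symm_apply_apply]
    rw [h2] at h
    exact h
  lad X hX := by
    refine A_transport (R := fun (x : Fin n → k) (p : k × (Fin n → k)) =>
      p.1 • x + p.2 ∈ {x : Fin n → k | e.equivFun.symm x ∈ X}) (fun x => e.equivFun x)
      (fun p => (p.1, e.equivFun p.2)) ?_ (noLadder_affine hk hX)
    intro a b
    simp only [Set.mem_ofPred_eq, map_add, map_smul, LinearEquiv.symm_apply_apply]

theorem con_add [Infinite k] (hk : StableField k) {L : Type v} [AddCommGroup L] [Module k L]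
    (e : Module.Basis (Fin n) k L) (H : AddSubgroup L) (hH : (H : Set L) ∈ DL e) (S : Finset L)
    (hS : ∀ x : L, ∃ c ∈ S, x - c ∈ H) : H = ⊤ := by
  classical
  by_contra hne
  obtain ⟨x, hx⟩ : ∃ x, x ∉ H := by
    by_contra hcon
    push Not at hcon
    exact hne ((AddSubgroup.eq_top_iff' H).mpr hcon)
  have hg : Gen (H : Set L) := ⟨S, fun x => by
    obtain ⟨c, hc, h⟩ := hS x
    exact ⟨c, hc, h⟩⟩
  have hg' : Gen ((H : Set L)ᶜ) := by
    refine ⟨S.image (fun c => c - x), fun y => ?_⟩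
    obtain ⟨c, hc, h⟩ := hS y
    refine ⟨c - x, Finset.mem_image_of_mem _ hc, ?_⟩
    intro h2
    have h3 : y - (c - x) ∈ H := h2
    apply hx
    have h4 := H.sub_mem h3 h
    have h5 : y - (c - x) - (y - c) = x := by abel
    rwa [h5] at h4
  rcases (cls_DL hk e).not_gen_or hH with h | h
  · exact h hg
  · exact h hg'

theorem Cnn_mul {L : Type v} [Field L] [Algebra k L] (e : Module.Basis (Fin n) k L) {X : Set L}
    (hX : X ∈ DL e) (c : L) : {x | c * x ∈ X} ∈ DL e := by
  have h := Dfn.preimage (X := {x : Fin n → k | e.equivFun.symm x ∈ X}) hX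
    (g := fun x => e.equivFun (c * e.equivFun.symm x)) (fun b => by
      have h1 : (fun x : Fin n → k => e.equivFun (c * e.equivFun.symm x) b) =
          fun x : Fin n → k => ∑ i ∈ Finset.univ, x i * e.equivFun (c * e i) b := by
        funext x
        rw [Module.Basis.equivFun_symm_apply, Finset.mul_sum, map_sum, Finset.sum_apply]
        refine Finset.sum_congr rfl fun i _ => ?_
        rw [mul_smul_comm, map_smul, Pi.smul_apply, smul_eq_mul]
      change PolyFun (fun x : Fin n → k => e.equivFun (c * e.equivFun.symm x) b)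
      rw [h1]
      exact PolyFun.sum _ fun i => (PolyFun.coord i).mul (PolyFun.const _))
  have h2 : {x : Fin n → k | e.equivFun (c * e.equivFun.symm x) ∈
      {x : Fin n → k | e.equivFun.symm x ∈ X}} =
      {x : Fin n → k | e.equivFun.symm x ∈ {y | c * y ∈ X}} := by
    ext x
    simp only [Set.mem_ofPred_eq, LinearEquiv.symm_apply_apply]
  rw [h2] at h
  exact h

theorem con_mul [Infinite k] (hk : StableField k) {L : Type v} [Field L] [Algebra k L]
    (e : Module.Basis (Fin n) k L) (H : Subgroup Lˣ) (hH : {x : L | ∃ u ∈ H, (u : L) = x} ∈ DL e)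
    (S : Finset Lˣ) (hS : ∀ u : Lˣ, ∃ c ∈ S, c⁻¹ * u ∈ H) : H = ⊤ := by
  classical
  have hD := cls_DL hk e
  set X : Set L := {x : L | ∃ u ∈ H, (u : L) = x} with hXdef
  let Xc : Lˣ → Set L := fun c => {x | ((c⁻¹ : Lˣ) : L) * x ∈ X}
  have hXc : ∀ c, Xc c ∈ DL e := fun c => Cnn_mul e hH _
  have hYD : {x | ∃ c ∈ S, x ∈ Xc c} ∈ DL e := hD.biUnion hH S Xc fun c _ => hXc c
  have hnot : ¬ Gen ({x | ∃ c ∈ S, x ∈ Xc c}ᶜ) := by
    rintro ⟨F, hF⟩
    have hsub : ∀ x : L, x ∈ ({x | ∃ c ∈ S, x ∈ Xc c} : Set L)ᶜ → x = 0 := by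
      intro x hx
      by_contra hx0
      apply hx
      obtain ⟨c, hc, h⟩ := hS (Units.mk0 x hx0)
      exact ⟨c, hc, c⁻¹ * Units.mk0 x hx0, h, by rw [Units.val_mul, Units.val_mk0]⟩
    have hall : ∀ x : L, x ∈ F := by
      intro x
      obtain ⟨f, hf, h⟩ := hF x
      have := hsub _ h
      rw [sub_eq_zero] at this
      rwa [this]
    have : Infinite L := Infinite.of_injective (algebraMap k L) (algebraMap k L).injective
    obtain ⟨x, hx⟩ := Infinite.exists_notMem_finset F
    exact hx (hall x)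
  have hgY : Gen {x | ∃ c ∈ S, x ∈ Xc c} := by
    have h1 : Gen ({x | ∃ c ∈ S, x ∈ Xc c} ∪ {x | ∃ c ∈ S, x ∈ Xc c}ᶜ) := by
      rw [Set.union_compl_self]
      exact gen_univ
    rcases hD.gen_union hYD (hD.compl _ hYD) h1 with h | h
    · exact h
    · exact absurd h hnot
  obtain ⟨c, -, F, hF⟩ := hD.gen_biUnion hH S Xc (fun c _ => hXc c) hgY
  have hgd : ∀ d : Lˣ, Gen (Xc d) := by
    intro d
    refine ⟨F.image (fun f => (d : L) * ((c⁻¹ : Lˣ) : L) * f), fun x => ?_⟩
    obtain ⟨f, hf, h⟩ := hF ((c : L) * ((d⁻¹ : Lˣ) : L) * x)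
    refine ⟨_, Finset.mem_image_of_mem _ hf, ?_⟩
    have h1 : ((c⁻¹ : Lˣ) : L) * ((c : L) * ((d⁻¹ : Lˣ) : L) * x - f) ∈ X := h
    change ((d⁻¹ : Lˣ) : L) * (x - (d : L) * ((c⁻¹ : Lˣ) : L) * f) ∈ X
    have h2 : ((d⁻¹ : Lˣ) : L) * (x - (d : L) * ((c⁻¹ : Lˣ) : L) * f) =
        ((c⁻¹ : Lˣ) : L) * ((c : L) * ((d⁻¹ : Lˣ) : L) * x - f) := by
      have hc0 : (c : L) ≠ 0 := c.ne_zero
      have hd0 : (d : L) ≠ 0 := d.ne_zero
      rw [Units.val_inv_eq_inv_val, Units.val_inv_eq_inv_val]
      field_simp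
    rw [h2]
    exact h1
  by_contra hne
  obtain ⟨d, hd⟩ : ∃ d, d ∉ H := by
    by_contra hcon
    push Not at hcon
    exact hne ((Subgroup.eq_top_iff' H).mpr hcon)
  have h1 : Gen X := by
    have := hgd 1
    refine this.mono fun x hx => ?_
    have hx' : (((1 : Lˣ)⁻¹ : Lˣ) : L) * x ∈ X := hx
    simpa using hx'
  have h2 : Gen Xᶜ := by
    refine (hgd d).mono fun x hx hxX => ?_
    obtain ⟨u, hu, hux⟩ := hxX
    obtain ⟨v, hv, hvx⟩ : ∃ v ∈ H, (v : L) = ((d⁻¹ : Lˣ) : L) * x := hx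
    apply hd
    have h3 : v = d⁻¹ * u := by
      apply Units.ext
      rw [hvx, Units.val_mul, hux]
    have h4 : d = u * v⁻¹ := by
      rw [h3]
      group
    rw [h4]
    exact H.mul_mem hu (H.inv_mem hv)
  rcases hD.not_gen_or hH with h | h
  · exact h h1
  · exact h h2

end Pool.Agent.H43.SG
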