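import Pool.Agent.H43.SG.Df

/-!
Row Dfs (MP_9924a2_lc, about 120 lines): two definable sets.  `PolyFun` and `Dfn` lemmas: Pool/Agent/H7/ST/A.lean (see also Pool/Agent/H7/ST/H.lean, `Hterm`,
for coordinates of a product).

PROOF.  Call `g : (α → k) → L` polynomial if all `fun x => e.repr (g x) i` are `PolyFun`.  Products of polynomial maps are polynomial: `e.repr (a * b) i =
∑ j, ∑ l, (e.repr a j * e.repr b l) * e.repr (e j * e l) i` (as in `Hterm`); `fun x => f (e.equivFun.symm x)` is polynomial for every `k`-linear `f : L → L`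
(`e.equivFun.symm x = ∑ j, x j • e j`, so the coordinate is `∑ j, x j * e.repr (f (e j)) i`); induction on `m` for `∏ i ∈ range m` (`Finset.prod_range_succ`).
`dfs_norm`: the set `Z` of `z : Fin n ⊕ Unit → k` with `z (inr ()) ≠ 0` and, for all `i`, `e.repr (∏ ... (e.equivFun.symm (z ∘ inl))) i = z (inr ()) ^ p * e.repr 1 i` is `Dfn`
 (`Dfn.eq`, `Set.Definable.compl`, `.inter`, `Set.definable_iInter_of_finite`); `Set.Definable.exists_of_finite` as in `A_dfnNRel`, `dfn_psi`.
`dfs_as`: the same with `z (inr ()) ^ p - z (inr ()) = e.equivFun.symm (z ∘ inl)`; here `L = k`: use the coordinates of both sides (for all `i`: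
 `(w ^ p - w) * e.repr 1 i = x i`).
-/

set_option autoImplicit false

namespace Pool.Agent.H43.SG

open Pool.Agent.H7.ST

universe u v

variable {k : Type u} [Field k] [FirstOrder.Ring.CompatibleRing k] {n : ℕ}

omit [FirstOrder.Ring.CompatibleRing k] in
theorem Dfs_mul {L : Type v} [Field L] [Algebra k L] (e : Module.Basis (Fin n) k L) {α : Type*}
    {g h : (α → k) → L} (hg : ∀ i, PolyFun (fun x => e.repr (g x) i))
    (hh : ∀ i, PolyFun (fun x => e.repr (h x) i)) (i : Fin n) :
    PolyFun (fun x => e.repr (g x * h x) i) := by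
  have h2 : ∀ a b : L, e.repr (a * b) i =
      ∑ j, ∑ l, (e.repr a j * e.repr b l) * e.repr (e j * e l) i := by
    intro a b
    conv_lhs => rw [← e.sum_repr a, ← e.sum_repr b]
    rw [Finset.sum_mul_sum]
    simp only [map_sum, Finsupp.coe_finsetSum, Finset.sum_apply, smul_mul_smul_comm, map_smul,
      Finsupp.smul_apply, smul_eq_mul]
  have h3 : (fun x : α → k => e.repr (g x * h x) i) =
      fun x => ∑ j, ∑ l, (e.repr (g x) j * e.repr (h x) l) * e.repr (e j * e l) i :=
    funext fun x => h2 _ _
  rw [h3]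
  exact PolyFun.sum _ fun j => PolyFun.sum _ fun l => ((hg j).mul (hh l)).mul (PolyFun.const _)

omit [FirstOrder.Ring.CompatibleRing k] in
theorem Dfs_lin {L : Type v} [Field L] [Algebra k L] (e : Module.Basis (Fin n) k L)
    (f : L →ₗ[k] L) (i : Fin n) :
    PolyFun (fun x : Fin n → k => e.repr (f (e.equivFun.symm x)) i) := by
  have h3 : (fun x : Fin n → k => e.repr (f (e.equivFun.symm x)) i) =
      fun x => ∑ j, x j * e.repr (f (e j)) i := by
    funext x
    rw [Module.Basis.equivFun_symm_apply]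
    simp only [map_sum, Finsupp.coe_finsetSum, Finset.sum_apply, map_smul,
      Finsupp.smul_apply, smul_eq_mul]
  rw [h3]
  exact PolyFun.sum _ fun j => (PolyFun.coord j).mul (PolyFun.const _)

omit [FirstOrder.Ring.CompatibleRing k] in
theorem Dfs_prod {L : Type v} [Field L] [Algebra k L] (e : Module.Basis (Fin n) k L)
    (s : L ≃ₐ[k] L) (m : ℕ) : ∀ i : Fin n,
    PolyFun (fun x : Fin n → k =>
      e.repr (∏ t ∈ Finset.range m, (s ^ t) (e.equivFun.symm x)) i) := by
  induction m with
  | zero =>
    intro i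
    simp only [Finset.range_zero, Finset.prod_empty]
    exact PolyFun.const _
  | succ m ih =>
    intro i
    simp only [Finset.prod_range_succ]
    exact Dfs_mul e ih (fun j => Dfs_lin e ((s ^ m : L ≃ₐ[k] L).toLinearMap) j) i

omit [FirstOrder.Ring.CompatibleRing k] in
theorem Dfs_pow {α : Type*} (a : α) (p : ℕ) : PolyFun (fun x : α → k => x a ^ p) := by
  induction p with
  | zero =>
    simp only [pow_zero]
    exact PolyFun.const _
  | succ p ih =>
    simp only [pow_succ]
    exact ih.mul (PolyFun.coord a)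

theorem dfs_norm {L : Type v} [Field L] [Algebra k L] (e : Module.Basis (Fin n) k L)
    (s : L ≃ₐ[k] L) (m p : ℕ) :
    {y : L | ∃ w : k, w ≠ 0 ∧ ∏ i ∈ Finset.range m, (s ^ i) y = algebraMap k L (w ^ p)} ∈ DL e := by
  have h0 : Dfn {z : Fin n ⊕ Unit → k | z (Sum.inr ()) = 0} :=
    Dfn.eq (PolyFun.coord _) (PolyFun.const 0)
  have h1 : ∀ i : Fin n, Dfn {z : Fin n ⊕ Unit → k |
      e.repr (∏ t ∈ Finset.range m, (s ^ t) (e.equivFun.symm (fun j => z (Sum.inl j)))) i
        = z (Sum.inr ()) ^ p * e.repr 1 i} := by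
    intro i
    apply Dfn.eq
    · exact (Dfs_prod e s m i).comp (g := fun (z : Fin n ⊕ Unit → k) j => z (Sum.inl j))
        fun j => PolyFun.coord _
    · exact (Dfs_pow _ p).mul (PolyFun.const _)
  have h2 := (Set.Definable.compl h0).inter (Set.definable_iInter_of_finite h1)
  have h3 := Set.Definable.exists_of_finite h2
  have hk : ∀ (w : k) (y : L), y = algebraMap k L w ↔ ∀ i, e.repr y i = w * e.repr 1 i := by
    intro w y
    rw [Algebra.algebraMap_eq_smul_one]
    constructor
    · rintro rfl i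
      simp
    · intro h
      apply e.repr.injective
      ext i
      rw [h i]
      simp
  change Dfn _
  unfold Dfn
  convert h3 using 1
  ext x
  simp only [Set.mem_ofPred_eq, Set.mem_inter_iff, Set.mem_compl_iff, Set.mem_iInter,
    Sum.elim_inl, Sum.elim_inr, hk]
  constructor
  · rintro ⟨b, hb⟩
    exact ⟨fun _ => b, hb⟩
  · rintro ⟨u, hu⟩
    exact ⟨u (), hu⟩

theorem dfs_as (e : Module.Basis (Fin n) k k) (p : ℕ) :
    {x : k | ∃ w : k, w ^ p - w = x} ∈ DL e := by
  have h1 : ∀ i : Fin n, Dfn {z : Fin n ⊕ Unit → k |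
      z (Sum.inr ()) ^ p * e.repr 1 i = z (Sum.inl i) + z (Sum.inr ()) * e.repr 1 i} := by
    intro i
    apply Dfn.eq
    · exact (Dfs_pow _ p).mul (PolyFun.const _)
    · exact (PolyFun.coord _).add ((PolyFun.coord _).mul (PolyFun.const _))
  have h2 := Set.definable_iInter_of_finite h1
  have h3 := Set.Definable.exists_of_finite h2
  have hk : ∀ (w : k) (x : Fin n → k), w ^ p - w = e.equivFun.symm x ↔
      ∀ i, w ^ p * e.repr 1 i = x i + w * e.repr 1 i := by
    intro w x
    have hx : ∀ i, e.repr (e.equivFun.symm x) i = x i := by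
      intro i
      rw [← Module.Basis.equivFun_apply, LinearEquiv.apply_symm_apply]
    have hw : ∀ i, e.repr (w ^ p - w) i = w ^ p * e.repr 1 i - w * e.repr 1 i := by
      intro i
      have : w ^ p - w = (w ^ p - w) • (1 : k) := by simp
      rw [this, map_smul, Finsupp.smul_apply, smul_eq_mul, sub_mul]
    constructor
    · intro h i
      have h5 := hw i
      rw [h, hx] at h5
      rw [h5]
      ring
    · intro h
      apply e.repr.injective
      ext i
      rw [hw i, hx i, h i]
      ring
  change Dfn _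
  unfold Dfn
  convert h3 using 1
  ext x
  simp only [Set.mem_ofPred_eq, Set.mem_iInter, Sum.elim_inl, Sum.elim_inr, hk]
  constructor
  · rintro ⟨b, hb⟩
    exact ⟨fun _ => b, hb⟩
  · rintro ⟨u, hu⟩
    exact ⟨u (), hu⟩

end Pool.Agent.H43.SG
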