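import Mathlib

/-!
Row Res (MP_9924a2_lc, about 120 lines): resolvents for an automorphism `s` of order `m` of a field `L`.

PROOF.
`res_ne`: the maps `s ^ i : L →* L`, `i < m`, are different (`m` is the order), so linearly independent over `L` (`linearIndependent_monoidHom L L`, restricted to the family
 `fun i : Fin m => ((s ^ (i : ℕ) : L ≃ₐ[k] L) : L →* L)`, injective); a vanishing linear combination has all coefficients zero.
`res_eig`: `c i = ζ⁻¹ ^ i` (`ζ ≠ 0` since `ζ ^ m = 1`, `0 < m`), `x` from `res_ne`, `α = ∑ i ∈ range m, ζ⁻¹ ^ i * (s ^ i) x`.  `s α = ∑ ζ⁻¹ ^ i (s ^ (i+1)) x = ζ ∑ ζ⁻¹ ^ (i+1) (s ^ (i+1)) x`, and the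
 last sum is `α`: `Finset.sum_range_succ'` against `Finset.sum_range_succ` since the terms `0` and `m` agree (`s ^ m = 1`, `ζ ^ m = 1`).
`res_tr`: `c i = 1`, `t = ∑ (s ^ i) x ≠ 0`, `s t = t` (shift); `∑ (s ^ i) (x / t) = t / t` (`(s ^ i) t = t`).
`res_theta`: `x` from `res_tr`, `θ = - ∑ j ∈ range m, j * (s ^ j) x`.  `s θ = - ∑ j (s ^ (j+1)) x`, `∑_{j<m} (j + 1) (s ^ (j+1)) x = ∑_{j<m} j (s ^ j) x + m (s ^ m) x` (sum_range_succ and sum_range_succ') and
 `(m : L) = 0`; so `s θ - θ = ∑_{j<m} (s ^ (j+1)) x = 1` (shift again).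
-/

set_option autoImplicit false

namespace Pool.Agent.H43.SG

universe u v

variable {k : Type u} [Field k] {L : Type v} [Field L] [Algebra k L] (s : L ≃ₐ[k] L) {m : ℕ}

/-- the power of `s` as a multiplicative map -/
def Res_hom (i : ℕ) : L →* L := ((s ^ i : L ≃ₐ[k] L) : L →ₐ[k] L)

theorem Res_hom_apply (i : ℕ) (x : L) : Res_hom s i x = (s ^ i) x := rfl

theorem Res_succ (i : ℕ) (x : L) : s ((s ^ i) x) = (s ^ (i + 1)) x := by
  rw [pow_succ', AlgEquiv.mul_apply]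

theorem Res_shift (f : ℕ → L) (h : f m = f 0) :
    ∑ i ∈ Finset.range m, f (i + 1) = ∑ i ∈ Finset.range m, f i := by
  have h1 := Finset.sum_range_succ f m
  have h2 := Finset.sum_range_succ' f m
  rw [h1, h] at h2
  exact (add_right_cancel h2).symm

theorem res_ne (hm : orderOf s = m) (c : ℕ → L) {j : ℕ} (hj : j < m) (hc : c j ≠ 0) :
    ∃ x : L, ∑ i ∈ Finset.range m, c i * (s ^ i) x ≠ 0 := by
  by_contra hcon
  push Not at hcon
  have hinj : Function.Injective (fun i : Fin m => Res_hom s (i : ℕ)) := by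
    intro i i' h
    have h1 : (s ^ (i : ℕ)) = s ^ (i' : ℕ) := by
      ext x
      exact DFunLike.congr_fun h x
    have h2 : (i : ℕ) = (i' : ℕ) := by
      apply pow_injOn_Iio_orderOf (x := s) _ _ h1
      · rw [Set.mem_Iio, hm]
        exact i.2
      · rw [Set.mem_Iio, hm]
        exact i'.2
    exact Fin.ext h2
  have hli := (linearIndependent_monoidHom L L).comp _ hinj
  rw [Fintype.linearIndependent_iff] at hli
  refine hc (hli (fun i => c i) ?_ ⟨j, hj⟩)
  funext x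
  rw [Finset.sum_apply]
  have h3 := hcon x
  rw [← Fin.sum_univ_eq_sum_range (fun i => c i * (s ^ i) x) m] at h3
  exact h3

theorem res_eig (hm : orderOf s = m) (hm0 : 0 < m) (ζ : L) (hs : s ζ = ζ) (hζ : ζ ^ m = 1) :
    ∃ α : L, α ≠ 0 ∧ s α = ζ * α := by
  have hζ0 : ζ ≠ 0 := by
    intro h
    rw [h, zero_pow hm0.ne'] at hζ
    exact zero_ne_one hζ
  obtain ⟨x, hx⟩ := res_ne s hm (fun i => ζ⁻¹ ^ i) hm0 (by simp)
  refine ⟨_, hx, ?_⟩
  have hsm : s ^ m = 1 := by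
    rw [← hm]
    exact pow_orderOf_eq_one s
  have h1 := Res_shift (m := m) (fun i => ζ⁻¹ ^ i * (s ^ i) x) (by
    simp only [pow_zero, one_mul]
    rw [hsm, inv_pow, hζ, inv_one, one_mul])
  rw [map_sum, ← h1, Finset.mul_sum]
  apply Finset.sum_congr rfl
  intro i _
  rw [map_mul, map_pow, map_inv₀, hs, Res_succ, pow_succ ζ⁻¹ i]
  rw [show ζ * (ζ⁻¹ ^ i * ζ⁻¹ * (s ^ (i + 1)) x) = (ζ * ζ⁻¹) * (ζ⁻¹ ^ i * (s ^ (i + 1)) x) by ring,
    mul_inv_cancel₀ hζ0, one_mul]

theorem res_tr (hm : orderOf s = m) (hm0 : 0 < m) :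
    ∃ x : L, ∑ i ∈ Finset.range m, (s ^ i) x = 1 := by
  obtain ⟨x, hx⟩ := res_ne s hm (fun _ => 1) hm0 one_ne_zero
  simp only [one_mul] at hx
  have hsm : s ^ m = 1 := by
    rw [← hm]
    exact pow_orderOf_eq_one s
  obtain ⟨t, ht⟩ : ∃ t, t = ∑ i ∈ Finset.range m, (s ^ i) x := ⟨_, rfl⟩
  rw [← ht] at hx
  have hst : s t = t := by
    have h1 := Res_shift (m := m) (fun i => (s ^ i) x) (by
      simp only [pow_zero]
      rw [hsm])
    rw [ht, map_sum, ← h1]
    apply Finset.sum_congr rfl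
    intro i _
    exact Res_succ s i x
  have hsti : ∀ i : ℕ, (s ^ i) t = t := by
    intro i
    induction i with
    | zero => rfl
    | succ i ih => rw [← Res_succ, ih, hst]
  refine ⟨x / t, ?_⟩
  have h2 : ∀ i : ℕ, (s ^ i) (x / t) = (s ^ i) x / t := by
    intro i
    rw [map_div₀, hsti]
  rw [Finset.sum_congr rfl (fun i _ => h2 i), ← Finset.sum_div, ← ht, div_self hx]

theorem res_theta (hm : orderOf s = m) (hm0 : 0 < m) (hp : (m : L) = 0) :
    ∃ θ : L, s θ = θ + 1 := by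
  obtain ⟨x, hx⟩ := res_tr s hm hm0
  have hsm : s ^ m = 1 := by
    rw [← hm]
    exact pow_orderOf_eq_one s
  refine ⟨- ∑ j ∈ Finset.range m, (j : L) * (s ^ j) x, ?_⟩
  have h1 := Res_shift (m := m) (fun i => (s ^ i) x) (by
    simp only [pow_zero]
    rw [hsm])
  have h2 := Res_shift (m := m) (fun j => (j : L) * (s ^ j) x) (by
    simp only [hp, Nat.cast_zero, zero_mul])
  rw [map_neg, map_sum]
  have h3 : ∀ j : ℕ, s ((j : L) * (s ^ j) x) = ((j + 1 : ℕ) : L) * (s ^ (j + 1)) x - (s ^ (j + 1)) x := by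
    intro j
    rw [map_mul, map_natCast, Res_succ]
    push_cast
    ring
  rw [Finset.sum_congr rfl (fun j _ => h3 j), Finset.sum_sub_distrib]
  rw [h2, h1, hx]
  ring

end Pool.Agent.H43.SG
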