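import Pool.Agent.H43.SG.Cnn
import Pool.Agent.H43.SG.Dfs
import Pool.Agent.H43.SG.Res

/-!
Row Na (MP_9924a2_lc, about 90 lines): the trace of an Artin-Schreier extension of a stable field is not onto finitely many classes.

PROOF.  `m = p ^ r`, `Tr y = ∑ i ∈ range m, (s ^ i) y`.  `θ` from `res_theta` (`(m : L) = 0`, CharP), `s θ = θ + 1`; `℘ x = x ^ p - x` is additive (`sub_pow_char`, `add_pow_char`), `℘ θ` is fixed by `s`: `℘ θ = a ∈ k`.
(1) if `w : L` and `℘ w ∈ k` then `w = c + j θ` with `c ∈ k`, `j < p` a natural number: `℘ (s w - w) = 0`, so `s w - w` is a root of `X^p - X`, an element `j` of the prime field (the `p` natural numbers `j < p`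
 are different roots of `X^p - X` (`CharP`), at most `p` roots; or `ZMod`/`FiniteField` lemmas such as `sub_pow_char`... e.g. `∏_{j<p} (X - j) = X^p - X`), and `w - j θ` is fixed by `s`.  So `℘ w = ℘ c + j a` (`j ^ p = j`).
(2) `H : AddSubgroup k` = `{x | ∃ w, w ^ p - w = x}`, in `DL e`, `e = Module.finBasis k k` (`dfs_as`).  For `x : k` put `y = x * x0` with `Tr x0 = 1` (`res_tr`; `s` fixes `k`): `x = Tr y = t + ℘ w`, `t ∈ T`.  Choose for each
 `t ∈ T`, if possible, `x_t : k` and `w_t` with `x_t = t + ℘ w_t`; `S` = all `x_t + j a`, `j < p`.  For `x : k` with `x = t + ℘ w`: `x - x_t = ℘ (w - w_t)`, which by (1) is `℘ c + j a` with `c ∈ k`, so `x - (x_t + j a) ∈ H`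
 (`algebraMap` is injective).
(3) `con_add`: `H = ⊤`, so `a = ℘ c`, `c ∈ k`; `℘ (θ - c) = 0`, so `θ - c` is in the prime field (root of `X^p - X`), fixed by `s`, and `s θ = θ`, contradiction.
-/

set_option autoImplicit false

namespace Pool.Agent.H43.SG

open Pool.Agent.H7.ST

universe u v

theorem Na_prime {L : Type v} [Field L] {p : ℕ} (hp : p.Prime) [CharP L p] {z : L}
    (hz : z ^ p = z) : ∃ j : ℕ, j < p ∧ z = (j : L) := by
  have : Fact p.Prime := ⟨hp⟩
  have h1 : z ∈ (⊥ : Subfield L) := (Subfield.mem_bot_iff_pow_eq_self L p).2 hz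
  rw [← ZMod.fieldRange_castHom_eq_bot p] at h1
  obtain ⟨a, ha⟩ := h1
  refine ⟨a.val, ZMod.val_lt a, ?_⟩
  rw [← ha]
  conv_lhs => rw [← ZMod.natCast_zmod_val a]
  exact map_natCast _ _

theorem Na_natpow {L : Type v} [Field L] {p : ℕ} (hp : p.Prime) [CharP L p] (j : ℕ) :
    (j : L) ^ p = (j : L) := by
  have : Fact p.Prime := ⟨hp⟩
  have h := map_natCast (frobenius L p) j
  rwa [frobenius_def] at h

theorem na {k : Type u} [Field k] [FirstOrder.Ring.CompatibleRing k] [Infinite k]
    (hk : StableField k) {L : Type v} [Field L] [Algebra k L] [FiniteDimensional k L]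
    (s : L ≃ₐ[k] L) (hfix : ∀ x : L, s x = x → ∃ c : k, algebraMap k L c = x) {p r : ℕ}
    (hp : p.Prime) (hr : 1 ≤ r) (hs : orderOf s = p ^ r) [CharP L p] (T : Finset L)
    (hT : ∀ y : L, ∃ t ∈ T, ∃ w : L,
      ∑ i ∈ Finset.range (p ^ r), (s ^ i) y = t + (w ^ p - w)) : False := by
  classical
  have : Fact p.Prime := ⟨hp⟩
  have hinj : Function.Injective (algebraMap k L) := (algebraMap k L).injective
  have : CharP k p := (algebraMap k L).charP hinj p
  have hm0 : 0 < p ^ r := pow_pos hp.pos r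
  have hmL : ((p ^ r : ℕ) : L) = 0 := by
    rw [Nat.cast_pow, CharP.cast_eq_zero, zero_pow (by omega)]
  obtain ⟨x0, hx0⟩ := res_tr s hs hm0
  obtain ⟨θ, hθ⟩ := res_theta s hs hm0 hmL
  -- the element a
  have hθp : s (θ ^ p - θ) = θ ^ p - θ := by
    rw [map_sub, map_pow, hθ, add_pow_char, one_pow]
    ring
  obtain ⟨a, ha⟩ := hfix _ hθp
  -- step 1
  have step1 : ∀ w : L, (∃ x : k, algebraMap k L x = w ^ p - w) →
      ∃ (c : k) (j : ℕ), j < p ∧ w = algebraMap k L c + (j : L) * θ := by
    rintro w ⟨x, hx⟩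
    have hz : (s w - w) ^ p = s w - w := by
      have h1 : s (w ^ p - w) = w ^ p - w := by
        rw [← hx]
        exact s.commutes x
      rw [map_sub, map_pow] at h1
      rw [sub_pow_char]
      linear_combination h1
    obtain ⟨j, hj, hj2⟩ := Na_prime hp hz
    have h2 : s (w - (j : L) * θ) = w - (j : L) * θ := by
      rw [map_sub, map_mul, map_natCast, hθ]
      linear_combination hj2
    obtain ⟨c, hc⟩ := hfix _ h2
    exact ⟨c, j, hj, by rw [hc]; ring⟩
  -- the subgroup
  let H : AddSubgroup k :=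
    { carrier := {x : k | ∃ w : k, w ^ p - w = x}
      add_mem' := by
        rintro x y ⟨w, hw⟩ ⟨v, hv⟩
        refine ⟨w + v, ?_⟩
        rw [add_pow_char, ← hw, ← hv]
        ring
      zero_mem' := ⟨0, by rw [zero_pow hp.ne_zero, sub_zero]⟩
      neg_mem' := by
        rintro x ⟨w, hw⟩
        refine ⟨0 - w, ?_⟩
        rw [sub_pow_char, ← hw, zero_pow hp.ne_zero]
        ring }
  have hH : (H : Set k) ∈ DL (Module.finBasis k k) := dfs_as (Module.finBasis k k) p
  -- the finite set
  let f : L → k := fun t =>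
    if h : ∃ x : k, ∃ w : L, algebraMap k L x = t + (w ^ p - w) then h.choose else 0
  have hf : ∀ t : L, (∃ x : k, ∃ w : L, algebraMap k L x = t + (w ^ p - w)) →
      ∃ w : L, algebraMap k L (f t) = t + (w ^ p - w) := by
    intro t h
    have h1 : f t = h.choose := dif_pos h
    rw [h1]
    exact h.choose_spec
  have hS : ∀ x : k, ∃ c ∈ (T ×ˢ Finset.range p).image (fun q : L × ℕ => f q.1 + (q.2 : k) * a),
      x - c ∈ H := by
    intro x
    obtain ⟨t, ht, w, hw⟩ := hT (algebraMap k L x * x0)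
    have h1 : ∑ i ∈ Finset.range (p ^ r), (s ^ i) (algebraMap k L x * x0) = algebraMap k L x := by
      have h2 : ∀ i ∈ Finset.range (p ^ r), (s ^ i) (algebraMap k L x * x0) =
          algebraMap k L x * (s ^ i) x0 := by
        intro i _
        rw [map_mul]
        congr 1
        exact (s ^ i).commutes x
      rw [Finset.sum_congr rfl h2, ← Finset.mul_sum, hx0, mul_one]
    rw [h1] at hw
    obtain ⟨v, hv⟩ := hf t ⟨x, w, hw⟩
    have h3 : algebraMap k L (x - f t) = (w - v) ^ p - (w - v) := by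
      rw [map_sub, hw, hv, sub_pow_char]
      ring
    obtain ⟨c, j, hj, hc⟩ := step1 (w - v) ⟨_, h3⟩
    refine ⟨f t + (j : k) * a, ?_, ?_⟩
    · refine Finset.mem_image.2 ⟨(t, j), ?_, rfl⟩
      rw [Finset.mem_product]
      exact ⟨ht, Finset.mem_range.2 hj⟩
    · refine ⟨c, ?_⟩
      apply hinj
      rw [hc, add_pow_char, mul_pow, Na_natpow hp] at h3
      rw [map_sub] at h3
      rw [map_sub, map_sub, map_add, map_mul, map_pow, map_natCast, ha]
      linear_combination -h3
  have htop := con_add hk (Module.finBasis k k) H hH _ hS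
  have haH : a ∈ H := by
    rw [htop]
    exact AddSubgroup.mem_top a
  obtain ⟨c, hc⟩ := haH
  have h4 : (θ - algebraMap k L c) ^ p = θ - algebraMap k L c := by
    rw [sub_pow_char, ← map_pow]
    have h5 : algebraMap k L (c ^ p - c) = θ ^ p - θ := by rw [hc, ha]
    rw [map_sub] at h5
    linear_combination -h5
  obtain ⟨j, -, hj⟩ := Na_prime hp h4
  have h6 : s (θ - algebraMap k L c) = θ - algebraMap k L c := by
    rw [hj, map_natCast]
  rw [map_sub, hθ, s.commutes] at h6
  have h7 : (1 : L) = 0 := by linear_combination h6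
  exact one_ne_zero h7

end Pool.Agent.H43.SG
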