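import Mathlib

/-!
Row Stp (MP_9924a2_lc, about 120 lines): the norm is a power of `s - 1` modulo `p`.

PROOF.
`geo`: in `(ZMod p)[X]` both `(∑ i ∈ range (p^r), X^i) * (X - 1) = X^(p^r) - 1` (`geom_sum_mul`) and `(X - 1)^(p^r - 1) * (X - 1) = (X - 1)^(p^r) = X^(p^r) - 1` (`sub_pow_char_pow`); cancel `X - 1`.  So the image of
 `(∑ X^i) - (X - 1)^(p^r-1) ∈ ℤ[X]` under `Polynomial.map (Int.castRingHom (ZMod p))` is zero, all its coefficients are divisible by `p` (`ZMod.intCast_zmod_eq_zero_iff_dvd`/`ZMod.intCast_zmod_eq_zero_iff_dvd`), and it is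
 `C (p : ℤ) * Q` (`Polynomial.C_dvd_iff_dvd_coeff`).
`stp_end`: apply `Polynomial.aeval f : ℤ[X] →ₐ[ℤ] AddMonoid.End A` to `geo` and evaluate at `y` (`q = (aeval f Q) y`).
`stp_mul`: `A = Additive Lˣ`, `f` = the endomorphism induced by `Units.map s`; `(f - 1)` is `y ↦ s y / y`; with `y' = (f-1)^(p^r-1-e) y` one has `(f-1)^(p^r-1) y = (f-1)^e y' = D^[e] y' = t w^p` (`D z = s z / z`,
 by `hT`), and `∏ (s^i) y = (t w^p) * q^p = t (w q)^p`.  (First show by induction on `n` that the value of `(f-1)^n` at a unit is `D^[n]`; `Function.iterate_succ_apply'`, `pow_succ'`.)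
`stp_add`: `A = L`, `f` = `s` as an additive endomorphism, `p • q = 0` (CharP).
-/

set_option autoImplicit false

namespace Pool.Agent.H43.SG

open Polynomial

universe u v

theorem geo {p : ℕ} (hp : p.Prime) (r : ℕ) : ∃ Q : ℤ[X],
    ∑ i ∈ Finset.range (p ^ r), (X : ℤ[X]) ^ i = (X - 1) ^ (p ^ r - 1) + C (p : ℤ) * Q := by
  have : Fact p.Prime := ⟨hp⟩
  have h1 : (∑ i ∈ Finset.range (p ^ r), (X : (ZMod p)[X]) ^ i) = (X - 1) ^ (p ^ r - 1) := by
    have h0 : (X - 1 : (ZMod p)[X]) ≠ 0 := by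
      have := Polynomial.X_sub_C_ne_zero (1 : ZMod p)
      rwa [map_one] at this
    apply mul_right_cancel₀ h0
    rw [geom_sum_mul, ← pow_succ, Nat.sub_add_cancel (Nat.one_le_pow _ _ hp.pos),
      sub_pow_char_pow, one_pow]
  have h2 : C (p : ℤ) ∣ (∑ i ∈ Finset.range (p ^ r), (X : ℤ[X]) ^ i) - (X - 1) ^ (p ^ r - 1) := by
    rw [Polynomial.C_dvd_iff_dvd_coeff]
    intro i
    rw [← ZMod.intCast_zmod_eq_zero_iff_dvd]
    have h3 : Polynomial.map (Int.castRingHom (ZMod p))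
        ((∑ i ∈ Finset.range (p ^ r), (X : ℤ[X]) ^ i) - (X - 1) ^ (p ^ r - 1)) = 0 := by
      rw [Polynomial.map_sub, Polynomial.map_sum, Polynomial.map_pow, Polynomial.map_sub,
        Polynomial.map_X, Polynomial.map_one]
      simp only [Polynomial.map_pow, Polynomial.map_X]
      rw [h1, sub_self]
    have h4 := congrArg (fun q => Polynomial.coeff q i) h3
    simpa only [Polynomial.coeff_map, Polynomial.coeff_zero, eq_intCast] using h4
  obtain ⟨Q, hQ⟩ := h2
  exact ⟨Q, by rw [← hQ]; ring⟩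

theorem stp_end {A : Type u} [AddCommGroup A] (f : AddMonoid.End A) {p : ℕ} (hp : p.Prime) (r : ℕ)
    (y : A) : ∃ q : A, ∑ i ∈ Finset.range (p ^ r), (f ^ i) y = ((f - 1) ^ (p ^ r - 1)) y + p • q := by
  obtain ⟨Q, hQ⟩ := geo hp r
  have h1 := congrArg (Polynomial.aeval (R := ℤ) f) hQ
  rw [map_sum, map_add, map_mul, map_pow, map_sub, map_one, Polynomial.aeval_X,
    Polynomial.aeval_C] at h1
  simp only [map_pow, Polynomial.aeval_X] at h1
  have h2 := congrArg (fun g : AddMonoid.End A => g y) h1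
  refine ⟨(Polynomial.aeval (R := ℤ) f Q) y, ?_⟩
  have e1 : (∑ i ∈ Finset.range (p ^ r), f ^ i : AddMonoid.End A) y =
      ∑ i ∈ Finset.range (p ^ r), (f ^ i) y := AddMonoidHom.finsetSum_apply _ _ _
  have e2 : ((algebraMap ℤ (AddMonoid.End A)) (p : ℤ) * (Polynomial.aeval (R := ℤ) f Q)) y =
      p • (Polynomial.aeval (R := ℤ) f Q) y := by
    rw [eq_intCast, Int.cast_natCast]
    rfl
  rw [← e1, ← e2]
  exact h2

theorem Stp_it {A : Type u} [AddCommGroup A] (g : AddMonoid.End A) (D : A → A)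
    (h : ∀ y, g y = D y) (n : ℕ) (y : A) : (g ^ n) y = D^[n] y := by
  induction n with
  | zero => rfl
  | succ n ih =>
    rw [pow_succ', Function.iterate_succ_apply', ← ih, ← h]
    rfl

theorem stp_mul {k : Type u} [Field k] {L : Type v} [Field L] [Algebra k L] (s : L ≃ₐ[k] L)
    {p r e : ℕ} (hp : p.Prime) (he : e ≤ p ^ r - 1) (T : Finset L)
    (hT : ∀ y : L, y ≠ 0 → ∃ t ∈ T, ∃ w : L, w ≠ 0 ∧ (fun z : L => s z / z)^[e] y = t * w ^ p)
    (y : L) (hy : y ≠ 0) :
    ∃ t ∈ T, ∃ w : L, w ≠ 0 ∧ ∏ i ∈ Finset.range (p ^ r), (s ^ i) y = t * w ^ p := by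
  let φ : Lˣ →* Lˣ := Units.map (s : L →* L)
  let f : AddMonoid.End (Additive Lˣ) := MonoidHom.toAdditive φ
  let c : Additive Lˣ → L := fun y => ((Additive.toMul y : Lˣ) : L)
  have hc0 : ∀ y, c y ≠ 0 := fun y => (Additive.toMul y).ne_zero
  have hcadd : ∀ y z, c (y + z) = c y * c z := fun y z => rfl
  have hcf : ∀ y, c (f y) = s (c y) := fun y => rfl
  have hcsub : ∀ y, c ((f - 1) y) = s (c y) / c y := by
    intro y
    have e1 : (f - 1) y + y = f y := by
      change (f y - y) + y = f y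
      rw [sub_add_cancel]
    have e2 := congrArg c e1
    rw [hcadd, hcf] at e2
    rw [eq_div_iff (hc0 y), e2]
  have hcit : ∀ n y, c (((f - 1) ^ n) y) = (fun z : L => s z / z)^[n] (c y) := by
    intro n
    induction n with
    | zero => intro y; rfl
    | succ n ih =>
      intro y
      rw [pow_succ', Function.iterate_succ_apply', ← ih]
      exact hcsub _
  have hcpow : ∀ i y, c ((f ^ i) y) = (s ^ i) (c y) := by
    intro i
    induction i with
    | zero => intro y; rfl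
    | succ i ih =>
      intro y
      rw [pow_succ', pow_succ', AlgEquiv.mul_apply, ← ih]
      exact hcf _
  have hcsum : ∀ (S : Finset ℕ) (g : ℕ → Additive Lˣ), c (∑ i ∈ S, g i) = ∏ i ∈ S, c (g i) := by
    intro S g
    classical
    induction S using Finset.induction_on with
    | empty => rfl
    | insert a S ha ih => rw [Finset.sum_insert ha, Finset.prod_insert ha, hcadd, ih]
  have hcsmul : ∀ (n : ℕ) q, c (n • q) = c q ^ n := by
    intro n q
    induction n with
    | zero => rw [zero_smul, pow_zero]; rfl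
    | succ n ih => rw [succ_nsmul, hcadd, ih, pow_succ]
  let Y : Additive Lˣ := Additive.ofMul (Units.mk0 y hy)
  have hY : c Y = y := rfl
  obtain ⟨q, hq⟩ := stp_end f hp r Y
  have h1 := congrArg c hq
  rw [hcsum, hcadd, hcsmul, hcit] at h1
  simp only [hcpow, hY] at h1
  have h2 : p ^ r - 1 = e + (p ^ r - 1 - e) := by omega
  rw [h2, Function.iterate_add_apply] at h1
  have hy' : (fun z : L => s z / z)^[p ^ r - 1 - e] y ≠ 0 := by
    rw [← hY, ← hcit]
    exact hc0 _
  obtain ⟨t, ht, w, hw, h3⟩ := hT _ hy'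
  refine ⟨t, ht, w * c q, mul_ne_zero hw (hc0 q), ?_⟩
  rw [h1, h3, mul_pow, mul_assoc]

theorem stp_add {k : Type u} [Field k] {L : Type v} [Field L] [Algebra k L] (s : L ≃ₐ[k] L)
    {p r e : ℕ} (hp : p.Prime) [CharP L p] (he : e ≤ p ^ r - 1) (T : Finset L)
    (hT : ∀ y : L, ∃ t ∈ T, ∃ w : L, (fun z : L => s z - z)^[e] y = t + (w ^ p - w)) (y : L) :
    ∃ t ∈ T, ∃ w : L, ∑ i ∈ Finset.range (p ^ r), (s ^ i) y = t + (w ^ p - w) := by
  let f : AddMonoid.End L := (s : L →+ L)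
  have hf : ∀ y, f y = s y := fun y => rfl
  obtain ⟨q, hq⟩ := stp_end f hp r y
  have h0 : p • q = 0 := by rw [nsmul_eq_mul, CharP.cast_eq_zero, zero_mul]
  have h1 : ((f - 1) ^ (p ^ r - 1)) y = (fun z : L => s z - z)^[p ^ r - 1] y :=
    Stp_it (f - 1) (fun z => s z - z) (fun y => rfl) _ _
  have h2 : p ^ r - 1 = e + (p ^ r - 1 - e) := by omega
  have h4 : ∀ i, (f ^ i) y = (s ^ i) y := by
    intro i
    rw [Stp_it f (fun z => s z) (fun y => rfl)]
    induction i with
    | zero => rfl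
    | succ i ih => rw [Function.iterate_succ_apply', ih, pow_succ', AlgEquiv.mul_apply]
  obtain ⟨t, ht, w, h3⟩ := hT ((fun z : L => s z - z)^[p ^ r - 1 - e] y)
  rw [← Function.iterate_add_apply, ← h2] at h3
  refine ⟨t, ht, w, ?_⟩
  rw [← h3, ← h1]
  simp only [← h4]
  rw [hq, h0, add_zero]

end Pool.Agent.H43.SG
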