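import Pool.Agent.H43.SG.Nm
import Pool.Agent.H43.SG.Na
import Pool.Agent.H43.SG.Stp

/-!
Row Cor (MP_9924a2_lc, about 150 lines): the contradiction for an automorphism of a finite normal extension of a stable field.

PROOF.  Both parts: `s0 = σ.restrictNormal L : L ≃ₐ[K] L` (`AlgEquiv.restrictNormal_commutes`), `algebraMap L Ω ((s0 ^ n) x) = (σ ^ n) x`; `hord` gives `orderOf s0 = p ^ r` (`orderOf_dvd_iff_pow_eq_one`, antisymmetry).
`k := IntermediateField.fixedField (Subgroup.zpowers s0) : IntermediateField K L`; it contains `K`, so it is infinite, it is finite-dimensional over `K`: with `FirstOrder.Ring.compatibleRingOfRing k` as a local instance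
`stable_finite` (Pool/Agent/H7/ST/H.lean) gives `StableField k`.  `s : L ≃ₐ[k] L` = `s0` (`AlgEquiv.ofRingEquiv`: `s0` fixes `k`), `(s ^ n) x = (s0 ^ n) x`, `orderOf s = p ^ r`; `hfix`: if `s0 x = x` then all powers (integers) of `s0` fix `x`, so
`x ∈ k`.  The iterates: `algebraMap L Ω ((fun z => s z / z)^[e] y) = (fun z => σ z / z)^[e] y` (induction).  `T' : Finset L` = the elements of `T` which lie in `L` (`T.subtype` / image of attach; or preimage under the injection `L → Ω`).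
`cor_mul`: `ζ` gives a primitive root in `L`, fixed by `s0`, so in `k` (`IsPrimitiveRoot.map_iff_of_injective`/`.of_map_of_injective`); the same for `i`; then `nm` with `stp_mul`.
`cor_add`: `na` with `stp_add`; `CharP L p` from `CharP K p` (`charP_of_injective_algebraMap`).
-/

set_option autoImplicit false

namespace Pool.Agent.H43.SG

open Pool.Agent.H7.ST

universe u

variable {K Ω : Type u} [Field K] [FirstOrder.Ring.CompatibleRing K] [Infinite K] [Field Ω]
  [Algebra K Ω]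

omit [FirstOrder.Ring.CompatibleRing K] [Infinite K] in
theorem Cor_pow (L : IntermediateField K Ω) [Normal K L] (σ : Ω ≃ₐ[K] Ω) (n : ℕ) (x : L) :
    (((σ.restrictNormal L ^ n) x : L) : Ω) = (σ ^ n) (x : Ω) := by
  induction n generalizing x with
  | zero => rfl
  | succ n ih =>
    have h : ((σ.restrictNormal L x : L) : Ω) = σ (x : Ω) := σ.restrictNormal_commutes L x
    rw [pow_succ, pow_succ, AlgEquiv.mul_apply, AlgEquiv.mul_apply, ih, h]

theorem Cor_data (hK : StableField K) (L : IntermediateField K Ω) [FiniteDimensional K L]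
    [Normal K L] (σ : Ω ≃ₐ[K] Ω) {p r : ℕ}
    (hord : ∀ n : ℕ, (∀ x ∈ L, (σ ^ n) x = x) ↔ p ^ r ∣ n) :
    ∃ (k : Type u) (_ : Field k) (_ : FirstOrder.Ring.CompatibleRing k) (_ : Infinite k)
      (_ : Algebra k L) (_ : FiniteDimensional k L) (s : L ≃ₐ[k] L), StableField k ∧
      (∀ x : L, ((s x : L) : Ω) = σ (x : Ω)) ∧
      (∀ x : L, s x = x → ∃ c : k, algebraMap k L c = x) ∧ orderOf s = p ^ r := by
  have hs0 : ∀ x : L, ((σ.restrictNormal L x : L) : Ω) = σ (x : Ω) :=
    fun x => σ.restrictNormal_commutes L x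
  generalize hs0e : σ.restrictNormal L = s0 at hs0
  have hpow : ∀ (n : ℕ) (x : L), (((s0 ^ n) x : L) : Ω) = (σ ^ n) (x : Ω) := by
    intro n x
    rw [← hs0e]
    exact Cor_pow L σ n x
  have hone : ∀ n : ℕ, s0 ^ n = 1 ↔ p ^ r ∣ n := by
    intro n
    rw [← hord n]
    constructor
    · intro h x hx
      have := hpow n ⟨x, hx⟩
      rw [h] at this
      exact this.symm
    · intro h
      ext x
      rw [hpow n x]
      exact h x x.2
  have hordm : orderOf s0 = p ^ r :=
    Nat.dvd_antisymm (orderOf_dvd_iff_pow_eq_one.2 ((hone _).2 dvd_rfl))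
      ((hone _).1 (pow_orderOf_eq_one s0))
  let k : IntermediateField K L := IntermediateField.fixedField (Subgroup.zpowers s0)
  letI : FirstOrder.Ring.CompatibleRing k := FirstOrder.Ring.compatibleRingOfRing k
  have hinf : Infinite k := Infinite.of_injective (algebraMap K k) (algebraMap K k).injective
  have hk : StableField k := stable_finite hK
  have hmem : ∀ x : L, x ∈ k ↔ s0 x = x := by
    intro x
    rw [IntermediateField.mem_fixedField_iff]
    constructor
    · intro h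
      exact h s0 (Subgroup.mem_zpowers s0)
    · intro h f hf
      have h1 : s0 ∈ MulAction.stabilizer (L ≃ₐ[K] L) x := h
      exact Subgroup.zpowers_le.2 h1 hf
  let s : L ≃ₐ[k] L := AlgEquiv.ofRingEquiv (f := s0.toRingEquiv) (fun c => (hmem _).1 c.2)
  have hss : ∀ x : L, s x = s0 x := fun x => rfl
  have hsp : ∀ (n : ℕ) (x : L), (s ^ n) x = (s0 ^ n) x := by
    intro n
    induction n with
    | zero => intro x; rfl
    | succ n ih =>
      intro x
      rw [pow_succ, pow_succ, AlgEquiv.mul_apply, AlgEquiv.mul_apply, ih, hss]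
  refine ⟨k, inferInstance, inferInstance, hinf, inferInstance, inferInstance, s, hk, ?_, ?_, ?_⟩
  · intro x
    rw [hss, hs0]
  · intro x hx
    exact ⟨⟨x, (hmem x).2 hx⟩, rfl⟩
  · rw [← hordm, orderOf_eq_orderOf_iff]
    intro n
    constructor
    · intro h
      ext x
      rw [← hsp, h]
      rfl
    · intro h
      ext x
      rw [hsp, h]
      rfl

theorem cor_mul (hK : StableField K) (L : IntermediateField K Ω) [FiniteDimensional K L]
    [Normal K L] (σ : Ω ≃ₐ[K] Ω) {p r e : ℕ} (hp : p.Prime) (hr : 1 ≤ r) (he : e ≤ p ^ r - 1)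
    (hord : ∀ n : ℕ, (∀ x ∈ L, (σ ^ n) x = x) ↔ p ^ r ∣ n) {ζ : Ω} (hζL : ζ ∈ L) (hζσ : σ ζ = ζ)
    (hζ : IsPrimitiveRoot ζ (p ^ r)) (hi : p = 2 → ∃ i ∈ L, σ i = i ∧ i ^ 2 = -1) (T : Finset Ω)
    (hT : ∀ y ∈ L, y ≠ 0 → ∃ t ∈ T, t ∈ L ∧ ∃ w ∈ L, w ≠ 0 ∧
      (fun z : Ω => σ z / z)^[e] y = t * w ^ p) : False := by
  classical
  obtain ⟨k, _, _, _, _, _, s, hk, hs, hfix, hso⟩ := Cor_data hK L σ hord
  obtain ⟨ζ', hζ'⟩ := hfix ⟨ζ, hζL⟩ (Subtype.ext (by rw [hs]; exact hζσ))
  have hprim : IsPrimitiveRoot ζ' (p ^ r) := by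
    apply IsPrimitiveRoot.of_map_of_injective (f := algebraMap k L) _ (algebraMap k L).injective
    rw [hζ']
    apply IsPrimitiveRoot.of_map_of_injective (f := algebraMap L Ω) _ (algebraMap L Ω).injective
    exact hζ
  have hi' : p = 2 → ∃ i : k, i ^ 2 = -1 := by
    intro h2
    obtain ⟨i, hiL, hi1, hi2⟩ := hi h2
    obtain ⟨c, hc⟩ := hfix ⟨i, hiL⟩ (Subtype.ext (by rw [hs]; exact hi1))
    refine ⟨c, (algebraMap k L).injective ?_⟩
    rw [map_pow, hc, map_neg, map_one]
    exact Subtype.ext hi2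
  have hsemi : Function.Semiconj (Subtype.val : L → Ω) (fun z : L => s z / z)
      (fun z : Ω => σ z / z) := by
    intro z
    show ((s z / z : L) : Ω) = σ (z : Ω) / (z : Ω)
    rw [← hs]
    rfl
  refine nm hk s hfix hp hr hso ζ' hprim hi' (T.subtype (· ∈ L))
    (stp_mul s hp he (T.subtype (· ∈ L)) ?_)
  intro y hy
  have hy0 : (y : Ω) ≠ 0 := fun h => hy (Subtype.ext h)
  obtain ⟨t, htT, htL, w, hwL, hw0, hw⟩ := hT y y.2 hy0
  refine ⟨⟨t, htL⟩, Finset.mem_subtype.2 htT, ⟨w, hwL⟩, fun h => hw0 (congrArg Subtype.val h), ?_⟩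
  apply Subtype.ext
  rw [hsemi.iterate_right e y, hw]
  rfl

theorem cor_add (hK : StableField K) (L : IntermediateField K Ω) [FiniteDimensional K L]
    [Normal K L] (σ : Ω ≃ₐ[K] Ω) {p r e : ℕ} (hp : p.Prime) (hr : 1 ≤ r) (he : e ≤ p ^ r - 1)
    [CharP K p] (hord : ∀ n : ℕ, (∀ x ∈ L, (σ ^ n) x = x) ↔ p ^ r ∣ n) (T : Finset Ω)
    (hT : ∀ y ∈ L, ∃ t ∈ T, t ∈ L ∧ ∃ w ∈ L,
      (fun z : Ω => σ z - z)^[e] y = t + (w ^ p - w)) : False := by
  classical
  obtain ⟨k, _, _, _, _, _, s, hk, hs, hfix, hso⟩ := Cor_data hK L σ hord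
  haveI : CharP L p := charP_of_injective_algebraMap (algebraMap K L).injective p
  have hsemi : Function.Semiconj (Subtype.val : L → Ω) (fun z : L => s z - z)
      (fun z : Ω => σ z - z) := by
    intro z
    show ((s z - z : L) : Ω) = σ (z : Ω) - (z : Ω)
    rw [← hs]
    rfl
  refine na hk s hfix hp hr hso (T.subtype (· ∈ L))
    (stp_add s hp he (T.subtype (· ∈ L)) ?_)
  intro y
  obtain ⟨t, htT, htL, w, hwL, hw⟩ := hT y y.2
  refine ⟨⟨t, htL⟩, Finset.mem_subtype.2 htT, ⟨w, hwL⟩, ?_⟩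
  apply Subtype.ext
  rw [hsemi.iterate_right e y, hw]
  rfl

end Pool.Agent.H43.SG
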