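import Pool.Agent.H7.ST.B
import Pool.Agent.H7.ST.H

/-! Stable fields and Galois groups (MP_9924a2_lc): definitions. -/

set_option autoImplicit false

namespace Pool.Agent.H43.SG

open Pool.Agent.H7.ST

universe u v

/-- Subsets of a finite-dimensional vector space which are definable over `k` in coordinates. -/
def DL {k : Type u} [Field k] [FirstOrder.Ring.CompatibleRing k] {L : Type v} [AddCommGroup L]
    [Module k L] {n : ℕ} (e : Module.Basis (Fin n) k L) : Set (Set L) :=
  {X | Dfn {x : Fin n → k | e.equivFun.symm x ∈ X}}

end Pool.Agent.H43.SG
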