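import Mathlib

/-!
Row Fnc (MP_9924a2_lc, about 250 lines): over a bounded field `M` only finitely many classes of `L` survive.

PROOF.  `a ∈ L` primitive: `L = K⟮a⟯` (`Field.exists_primitive_element K L`); an automorphism of `Ω` over `K` (e.g. one over `M`, restricted) which fixes `a` fixes `L` pointwise.  For `z : Ω` put `E z = M⟮a⟯ ⊔ M⟮z⟯ : IntermediateField M Ω`.
`fnc_mul`: for `y ∈ L`, `y ≠ 0` let `z_y ^ p = y` (`IsSepClosed.exists_pow_nat_eq`).  `z_y` is a root of `(minpoly K y).expand p` (monic, degree `p [K(y):K] ≤ p d`, `d = [L:K]`), so `[M(z_y):M] ≤ p d` (`IntermediateField.adjoin.finrank`,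
 `minpoly.natDegree_le`/`minpoly.min`-type bound for a monic polynomial over `M` with root `z_y`), `[M(a):M] ≤ d`, so `1 ≤ finrank M (E z_y) ≤ p d d` (`IntermediateField.finrank_sup_le`): the set of all `E z_y` is contained in a finite union of the finite sets of `hfin`.  For each `E` in this finite
 set for which there is `y ∈ L`, `y ≠ 0` with `E z_y = E` choose one, `y_E`; `T` = all `y_E ^ j`, `j < p`.
 Let `y ∈ L`, `y ≠ 0`, `z = z_y`, `E = E z`, `y0 = y_E`, `z0 = z_{y0}`.  For `h : Ω ≃ₐ[M] Ω` with `h a = a`: `h z = z ↔ h z0 = z0` (`h` fixes `E` pointwise).  CLAIM: there is `j < p` with `h (z / z0 ^ j) = z / z0 ^ j` for all `h` fixing `a`; then `f = z / z0 ^ j`, `y = y0 ^ j * f ^ p`.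
 If all `h` fixing `a` fix `z0`: `j = 0`.  Otherwise let `τ` fix `a` with `τ z0 = η z0`, `η ≠ 1`, `η ^ p = 1`, so `η` is a primitive `p`-th root of unity (`IsPrimitiveRoot` of prime order), `η ∈ L` (a power of `ζ`) is fixed by all `h` fixing `a`.  `τ z = η ^ j z` for some `j < p` (`IsPrimitiveRoot.eq_pow_of_pow_eq_one`).
 For `h` fixing `a`: `h z0 = η ^ b z0`; `g = (τ ^ b)⁻¹ h` fixes `a` and `z0` (`(τ ^ b) z0 = η ^ b z0`), so `g z = z`, `h z = (τ ^ b) z = η ^ (j b) z`, and `h (z0 ^ j) = η ^ (b j) z0 ^ j`.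
`fnc_add`: the same with `z_y ^ p - z_y = y` (`X ^ p - X - y` is separable: `IsSepClosed.exists_root`), root of `(minpoly K y).comp (X ^ p - X)`; `τ z0 = z0 + η`, `η ^ p = η`, `η` in the prime field, fixed by everything, `η ≠ 0`; `τ z = z + η'`, `η' = j η` with `j : ℕ`, `j < p` (the prime field has `p` elements: the
 natural multiples of `η`); `f = z - j z0`, `y = j y0 + (f ^ p - f)`, `T` = all `j y_E`.
-/

set_option autoImplicit false

namespace Pool.Agent.H43.SG

universe u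

variable {K M Ω : Type u} [Field K] [Field M] [Field Ω] [Algebra K M] [Algebra M Ω] [Algebra K Ω]
  [IsScalarTower K M Ω] [IsSepClosed Ω] [Algebra.IsAlgebraic M Ω]

theorem Fnc_fix {h : Ω ≃ₐ[M] Ω} {z w : Ω} (hz : h z = z)
    (hw : w ∈ IntermediateField.adjoin M ({z} : Set Ω)) : h w = w := by
  induction hw using IntermediateField.adjoin_induction with
  | mem x hx =>
    rw [Set.mem_singleton_iff] at hx
    rw [hx, hz]
  | algebraMap x => exact h.commutes x
  | add x y _ _ hx hy => rw [map_add, hx, hy]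
  | inv x _ hx => rw [map_inv₀, hx]
  | mul x y _ _ hx hy => rw [map_mul, hx, hy]

theorem Fnc_deg (L : IntermediateField K Ω) [FiniteDimensional K L] (r : Polynomial K)
    (hr : r.Monic) (hr0 : r.natDegree ≠ 0) {y z : Ω} (hy : y ∈ L)
    (hz : Polynomial.aeval z r = y) :
    Module.finrank M (IntermediateField.adjoin M ({z} : Set Ω)) ≠ 0 ∧
      Module.finrank M (IntermediateField.adjoin M ({z} : Set Ω)) ≤
        Module.finrank K L * r.natDegree := by
  set y' : L := ⟨y, hy⟩ with hy'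
  have hint : IsIntegral K y' := Algebra.IsIntegral.isIntegral y'
  have hqm : (minpoly K y').Monic := minpoly.monic hint
  have hqd : (minpoly K y').natDegree ≤ Module.finrank K L := minpoly.natDegree_le y'
  have hq0 : Polynomial.aeval y (minpoly K y') = 0 := by
    have h1 := congrArg (algebraMap L Ω) (minpoly.aeval K y')
    rw [← Polynomial.aeval_algebraMap_apply, map_zero] at h1
    exact h1
  have hRm : ((minpoly K y').comp r).Monic := hqm.comp hr hr0
  have hR0 : Polynomial.aeval z ((minpoly K y').comp r) = 0 := by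
    rw [Polynomial.aeval_comp, hz, hq0]
  have hzint : IsIntegral M z := (Algebra.IsAlgebraic.isAlgebraic z).isIntegral
  have hmin : (minpoly M z).natDegree ≤ (((minpoly K y').comp r).map (algebraMap K M)).natDegree := by
    apply Polynomial.natDegree_le_natDegree
    apply minpoly.min M z (hRm.map _)
    rw [Polynomial.aeval_map_algebraMap, hR0]
  rw [IntermediateField.adjoin.finrank hzint]
  refine ⟨(minpoly.natDegree_pos hzint).ne', hmin.trans ?_⟩
  rw [hRm.natDegree_map, Polynomial.natDegree_comp]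
  exact Nat.mul_le_mul_right _ hqd

theorem Fnc_choose (hfin : ∀ n : ℕ, n ≠ 0 → {E : IntermediateField M Ω | Module.finrank M E = n}.Finite)
    (Y : Set Ω) (z : Ω → Ω) (N : ℕ)
    (hY : ∀ y ∈ Y, Module.finrank M (IntermediateField.adjoin M ({z y} : Set Ω)) ≠ 0 ∧
      Module.finrank M (IntermediateField.adjoin M ({z y} : Set Ω)) ≤ N) :
    ∃ Y0 : Finset Ω, (∀ y ∈ Y0, y ∈ Y) ∧ ∀ y ∈ Y, ∃ y0 ∈ Y0,
      IntermediateField.adjoin M ({z y} : Set Ω) = IntermediateField.adjoin M ({z y0} : Set Ω) := by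
  have hS : (⋃ n ∈ Finset.Icc 1 N, {E : IntermediateField M Ω | Module.finrank M E = n}).Finite := by
    apply Set.Finite.biUnion (Finset.finite_toSet _)
    intro n hn
    apply hfin
    have := Finset.mem_Icc.1 (Finset.mem_coe.1 hn)
    omega
  have him : ((fun y => IntermediateField.adjoin M ({z y} : Set Ω)) '' Y).Finite := by
    apply hS.subset
    rintro E ⟨y, hy, rfl⟩
    obtain ⟨h0, h1⟩ := hY y hy
    simp only [Set.mem_iUnion, Set.mem_setOf_eq, exists_prop]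
    exact ⟨_, Finset.mem_Icc.2 ⟨Nat.one_le_iff_ne_zero.2 h0, h1⟩, rfl⟩
  obtain ⟨Y', hY'Y, hbij⟩ := (Set.surjOn_image (fun y => IntermediateField.adjoin M ({z y} : Set Ω)) Y).exists_bijOn_subset
  have hY'fin : Y'.Finite := hbij.finite_iff_finite.2 him
  refine ⟨hY'fin.toFinset, fun y hy => hY'Y (hY'fin.mem_toFinset.1 hy), fun y hy => ?_⟩
  obtain ⟨y0, hy0, he⟩ := hbij.surjOn (Set.mem_image_of_mem _ hy)
  exact ⟨y0, hY'fin.mem_toFinset.2 hy0, he.symm⟩

theorem Fnc_grp_mul (L : IntermediateField K Ω) {p : ℕ}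
    (hp : p.Prime) {ζ : Ω} (hζL : ζ ∈ L) (hζ : IsPrimitiveRoot ζ p) {y y0 z z0 : Ω}
    (hy : y ∈ L) (hy0 : y0 ∈ L) (hyn : y ≠ 0) (hy0n : y0 ≠ 0) (hz : z ^ p = y) (hz0 : z0 ^ p = y0)
    (hE : ∀ h : Ω ≃ₐ[M] Ω, h z = z ↔ h z0 = z0) :
    ∃ j < p, ∃ f : Ω, f ≠ 0 ∧ y = y0 ^ j * f ^ p ∧
      ∀ h : Ω ≃ₐ[M] Ω, (∀ x ∈ L, h x = x) → h f = f := by
  have hzn : z ≠ 0 := by
    rintro rfl
    exact hyn (by rw [← hz, zero_pow hp.ne_zero])
  have hz0n : z0 ≠ 0 := by
    rintro rfl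
    exact hy0n (by rw [← hz0, zero_pow hp.ne_zero])
  by_cases hc : ∀ h : Ω ≃ₐ[M] Ω, (∀ x ∈ L, h x = x) → h z0 = z0
  · exact ⟨0, hp.pos, z, hzn, by rw [pow_zero, one_mul, hz], fun h hh => (hE h).2 (hc h hh)⟩
  · push Not at hc
    obtain ⟨τ, hτL, hτ⟩ := hc
    have hpz : ∀ h : Ω ≃ₐ[M] Ω, (∀ x ∈ L, h x = x) → (h z / z) ^ p = 1 := by
      intro h hh
      rw [div_pow, ← map_pow, hz, hh y hy, div_self hyn]
    have hpz0 : ∀ h : Ω ≃ₐ[M] Ω, (∀ x ∈ L, h x = x) → (h z0 / z0) ^ p = 1 := by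
      intro h hh
      rw [div_pow, ← map_pow, hz0, hh y0 hy0, div_self hy0n]
    set η : Ω := τ z0 / z0 with hη
    have hηp : η ^ p = 1 := hpz0 τ hτL
    have hη1 : η ≠ 1 := by
      intro h1
      apply hτ
      rw [hη, div_eq_one_iff_eq hz0n] at h1
      exact h1
    haveI : Fact p.Prime := ⟨hp⟩
    haveI : NeZero p := ⟨hp.ne_zero⟩
    have hηprim : IsPrimitiveRoot η p := by
      rw [← orderOf_eq_prime hηp hη1]
      exact IsPrimitiveRoot.orderOf η
    have hηL : η ∈ L := by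
      obtain ⟨i, _, hi⟩ := hζ.eq_pow_of_pow_eq_one hηp
      rw [← hi]
      exact pow_mem hζL i
    obtain ⟨j, hj, hjz⟩ := hηprim.eq_pow_of_pow_eq_one (hpz τ hτL)
    have hτz0 : τ z0 = η * z0 := by rw [hη, div_mul_cancel₀ _ hz0n]
    have hτz : τ z = η ^ j * z := by rw [hjz, div_mul_cancel₀ _ hzn]
    have hpow0 : ∀ b : ℕ, (τ ^ b) z0 = η ^ b * z0 := by
      intro b
      induction b with
      | zero => simp
      | succ b ih =>
        rw [pow_succ', AlgEquiv.mul_apply, ih, map_mul, map_pow, hτL η hηL, hτz0]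
        ring
    have hpow : ∀ b : ℕ, (τ ^ b) z = (η ^ b) ^ j * z := by
      intro b
      induction b with
      | zero => simp
      | succ b ih =>
        rw [pow_succ', AlgEquiv.mul_apply, ih, map_mul, map_pow, map_pow, hτL η hηL, hτz]
        ring
    refine ⟨j, hj, z / z0 ^ j, div_ne_zero hzn (pow_ne_zero _ hz0n), ?_, ?_⟩
    · rw [div_pow, hz, ← pow_mul, mul_comm j p, pow_mul, hz0]
      field_simp
    · intro h hh
      obtain ⟨b, _, hb⟩ := hηprim.eq_pow_of_pow_eq_one (hpz0 h hh)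
      have hhz0 : h z0 = η ^ b * z0 := by rw [hb, div_mul_cancel₀ _ hz0n]
      have hg0 : ((τ ^ b)⁻¹ * h) z0 = z0 := by
        rw [AlgEquiv.mul_apply, hhz0, ← hpow0 b, ← AlgEquiv.mul_apply, inv_mul_cancel, AlgEquiv.one_apply]
      have hg : ((τ ^ b)⁻¹ * h) z = z := (hE _).2 hg0
      have hhz : h z = (η ^ b) ^ j * z := by
        rw [← hpow b]
        conv_rhs => rw [← hg]
        rw [← AlgEquiv.mul_apply, mul_inv_cancel_left]
      have hηn : (η ^ b) ^ j ≠ 0 := pow_ne_zero _ (pow_ne_zero _ (hηprim.ne_zero hp.ne_zero))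
      rw [map_div₀, map_pow, hhz, hhz0, mul_pow, mul_div_mul_left _ _ hηn]

theorem Fnc_nat {p : ℕ} (hp : p.Prime) [CharP Ω p] {w : Ω} (hw : w ^ p = w) :
    ∃ n < p, w = (n : Ω) := by
  haveI : Fact p.Prime := ⟨hp⟩
  have h1 : w ∈ (⊥ : Subfield Ω) := (Subfield.mem_bot_iff_pow_eq_self Ω p).2 hw
  rw [← ZMod.fieldRange_castHom_eq_bot p] at h1
  obtain ⟨a, ha⟩ := h1
  refine ⟨a.val, ZMod.val_lt a, ?_⟩
  rw [← ha, ZMod.castHom_apply, ZMod.natCast_val]

theorem Fnc_grp_add (L : IntermediateField K Ω) {p : ℕ}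
    (hp : p.Prime) [CharP Ω p] {y y0 z z0 : Ω}
    (hy : y ∈ L) (hy0 : y0 ∈ L) (hz : z ^ p - z = y) (hz0 : z0 ^ p - z0 = y0)
    (hE : ∀ h : Ω ≃ₐ[M] Ω, h z = z ↔ h z0 = z0) :
    ∃ j < p, ∃ f : Ω, y = (j : Ω) * y0 + (f ^ p - f) ∧
      ∀ h : Ω ≃ₐ[M] Ω, (∀ x ∈ L, h x = x) → h f = f := by
  haveI : Fact p.Prime := ⟨hp⟩
  have hnp : ∀ n : ℕ, (n : Ω) ^ p = (n : Ω) := by
    intro n
    have h1 := congrArg (ZMod.castHom (dvd_refl p) Ω) (ZMod.pow_card (n : ZMod p))
    rw [map_pow, map_natCast] at h1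
    exact h1
  by_cases hc : ∀ h : Ω ≃ₐ[M] Ω, (∀ x ∈ L, h x = x) → h z0 = z0
  · exact ⟨0, hp.pos, z, by rw [Nat.cast_zero, zero_mul, zero_add, hz], fun h hh => (hE h).2 (hc h hh)⟩
  · push Not at hc
    obtain ⟨τ, hτL, hτ⟩ := hc
    have hpz : ∀ h : Ω ≃ₐ[M] Ω, (∀ x ∈ L, h x = x) → (h z - z) ^ p = h z - z := by
      intro h hh
      have h1 := hh y hy
      rw [← hz, map_sub, map_pow] at h1
      rw [sub_pow_char]
      linear_combination h1
    have hpz0 : ∀ h : Ω ≃ₐ[M] Ω, (∀ x ∈ L, h x = x) → (h z0 - z0) ^ p = h z0 - z0 := by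
      intro h hh
      have h1 := hh y0 hy0
      rw [← hz0, map_sub, map_pow] at h1
      rw [sub_pow_char]
      linear_combination h1
    obtain ⟨m, _, hm⟩ := Fnc_nat hp (hpz0 τ hτL)
    obtain ⟨l, _, hl⟩ := Fnc_nat hp (hpz τ hτL)
    have hm0 : (m : Ω) ≠ 0 := by
      rw [← hm]
      exact sub_ne_zero.2 hτ
    obtain ⟨j, hj, hjl⟩ := Fnc_nat (w := (l : Ω) / m) hp (by rw [div_pow, hnp, hnp])
    have hjm : (l : Ω) = j * m := by rw [← hjl, div_mul_cancel₀ _ hm0]
    have hτz0 : τ z0 = z0 + m := by rw [← hm]; ring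
    have hτz : τ z = z + j * m := by rw [← hjm, ← hl]; ring
    have hpow0 : ∀ b : ℕ, (τ ^ b) z0 = z0 + b * m := by
      intro b
      induction b with
      | zero => simp
      | succ b ih =>
        rw [pow_succ', AlgEquiv.mul_apply, ih, map_add, map_mul, map_natCast, map_natCast, hτz0]
        push_cast
        ring
    have hpow : ∀ b : ℕ, (τ ^ b) z = z + j * (b * m) := by
      intro b
      induction b with
      | zero => simp
      | succ b ih =>
        rw [pow_succ', AlgEquiv.mul_apply, ih, map_add, map_mul, map_mul, map_natCast, map_natCast,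
          map_natCast, hτz]
        push_cast
        ring
    refine ⟨j, hj, z - j * z0, ?_, ?_⟩
    · rw [sub_pow_char, mul_pow, hnp, ← hz, ← hz0]
      ring
    · intro h hh
      obtain ⟨c, _, hc⟩ := Fnc_nat hp (hpz0 h hh)
      obtain ⟨b, _, hb⟩ := Fnc_nat (w := (c : Ω) / m) hp (by rw [div_pow, hnp, hnp])
      have hbm : (c : Ω) = b * m := by rw [← hb, div_mul_cancel₀ _ hm0]
      have hhz0 : h z0 = z0 + b * m := by rw [← hbm, ← hc]; ring
      have hg0 : ((τ ^ b)⁻¹ * h) z0 = z0 := by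
        rw [AlgEquiv.mul_apply, hhz0, ← hpow0 b, ← AlgEquiv.mul_apply, inv_mul_cancel, AlgEquiv.one_apply]
      have hg : ((τ ^ b)⁻¹ * h) z = z := (hE _).2 hg0
      have hhz : h z = z + j * (b * m) := by
        rw [← hpow b]
        conv_rhs => rw [← hg]
        rw [← AlgEquiv.mul_apply, mul_inv_cancel_left]
      rw [map_sub, map_mul, map_natCast, hhz, hhz0]
      ring

theorem Fnc_iff {z z0 : Ω} (he : IntermediateField.adjoin M ({z} : Set Ω) =
    IntermediateField.adjoin M ({z0} : Set Ω)) (h : Ω ≃ₐ[M] Ω) : h z = z ↔ h z0 = z0 := by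
  constructor
  · intro hz
    apply Fnc_fix hz
    rw [he]
    exact IntermediateField.mem_adjoin_simple_self M z0
  · intro hz
    apply Fnc_fix hz
    rw [← he]
    exact IntermediateField.mem_adjoin_simple_self M z

theorem fnc_mul (hfin : ∀ n : ℕ, n ≠ 0 → {E : IntermediateField M Ω | Module.finrank M E = n}.Finite)
    (L : IntermediateField K Ω) [FiniteDimensional K L] [Algebra.IsSeparable K L] {p : ℕ}
    (hp : p.Prime) (hpΩ : (p : Ω) ≠ 0) {ζ : Ω} (hζL : ζ ∈ L) (hζ : IsPrimitiveRoot ζ p) :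
    ∃ T : Finset Ω, (∀ t ∈ T, t ∈ L ∧ t ≠ 0) ∧ ∀ y ∈ L, y ≠ 0 → ∃ t ∈ T, ∃ f : Ω, f ≠ 0 ∧
      y = t * f ^ p ∧ ∀ h : Ω ≃ₐ[M] Ω, (∀ x ∈ L, h x = x) → h f = f := by
  classical
  haveI : NeZero (p : Ω) := ⟨hpΩ⟩
  choose z hz using fun y : Ω => IsSepClosed.exists_pow_nat_eq y p
  obtain ⟨Y0, hY0, hY⟩ := Fnc_choose hfin {y : Ω | y ∈ L ∧ y ≠ 0} z (Module.finrank K L * p) (by
    rintro y ⟨hy, -⟩
    have h1 := Fnc_deg (M := M) L (Polynomial.X ^ p : Polynomial K) (Polynomial.monic_X_pow p)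
      (by rw [Polynomial.natDegree_X_pow]; exact hp.ne_zero) hy (z := z y)
      (by rw [map_pow, Polynomial.aeval_X, hz])
    rwa [Polynomial.natDegree_X_pow] at h1)
  refine ⟨(Y0 ×ˢ Finset.range p).image (fun x => x.1 ^ x.2), ?_, ?_⟩
  · intro t ht
    obtain ⟨⟨y0, j⟩, hx, rfl⟩ := Finset.mem_image.1 ht
    obtain ⟨h1, h2⟩ := hY0 y0 (Finset.mem_product.1 hx).1
    exact ⟨pow_mem h1 j, pow_ne_zero j h2⟩
  · intro y hy hyn
    obtain ⟨y0, hy0, he⟩ := hY y ⟨hy, hyn⟩
    obtain ⟨h1, h2⟩ := hY0 y0 hy0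
    obtain ⟨j, hj, f, hf0, hf, hh⟩ := Fnc_grp_mul (M := M) L hp hζL hζ hy h1 hyn h2 (hz y) (hz y0)
      (Fnc_iff he)
    exact ⟨y0 ^ j, Finset.mem_image.2 ⟨(y0, j), Finset.mem_product.2 ⟨hy0, Finset.mem_range.2 hj⟩, rfl⟩,
      f, hf0, hf, hh⟩

theorem fnc_add (hfin : ∀ n : ℕ, n ≠ 0 → {E : IntermediateField M Ω | Module.finrank M E = n}.Finite)
    (L : IntermediateField K Ω) [FiniteDimensional K L] [Algebra.IsSeparable K L] {p : ℕ}
    (hp : p.Prime) [CharP Ω p] :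
    ∃ T : Finset Ω, (∀ t ∈ T, t ∈ L) ∧ ∀ y ∈ L, ∃ t ∈ T, ∃ f : Ω,
      y = t + (f ^ p - f) ∧ ∀ h : Ω ≃ₐ[M] Ω, (∀ x ∈ L, h x = x) → h f = f := by
  classical
  haveI : Fact p.Prime := ⟨hp⟩
  have hex : ∀ y : Ω, ∃ z : Ω, z ^ p - z = y := by
    intro y
    have hdeg : (Polynomial.X ^ p - (Polynomial.X + Polynomial.C y) : Polynomial Ω).degree = p := by
      rw [Polynomial.degree_sub_eq_left_of_degree_lt, Polynomial.degree_X_pow]
      rw [Polynomial.degree_X_add_C, Polynomial.degree_X_pow]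
      exact_mod_cast hp.one_lt
    obtain ⟨z, hz⟩ := IsSepClosed.exists_root
      (Polynomial.X ^ p - (Polynomial.X + Polynomial.C y) : Polynomial Ω)
      (by rw [hdeg]; exact_mod_cast hp.ne_zero)
      (by
        rw [Polynomial.separable_def]
        have hd : Polynomial.derivative
            (Polynomial.X ^ p - (Polynomial.X + Polynomial.C y) : Polynomial Ω) = -1 := by
          rw [Polynomial.derivative_sub, Polynomial.derivative_add, Polynomial.derivative_X_pow,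
            Polynomial.derivative_X, Polynomial.derivative_C, CharP.cast_eq_zero, map_zero]
          ring
        rw [hd]
        exact isCoprime_one_right.neg_right)
    refine ⟨z, ?_⟩
    rw [Polynomial.IsRoot.def, Polynomial.eval_sub, Polynomial.eval_add, Polynomial.eval_pow,
      Polynomial.eval_X, Polynomial.eval_C] at hz
    linear_combination hz
  choose z hz using hex
  have hnd : (Polynomial.X ^ p - Polynomial.X : Polynomial K).natDegree = p :=
    FiniteField.X_pow_card_sub_X_natDegree_eq K hp.one_lt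
  have hmon : (Polynomial.X ^ p - Polynomial.X : Polynomial K).Monic := by
    apply Polynomial.monic_X_pow_sub
    rw [Polynomial.degree_X]
    exact_mod_cast hp.one_lt
  obtain ⟨Y0, hY0, hY⟩ := Fnc_choose hfin {y : Ω | y ∈ L} z (Module.finrank K L * p) (by
    intro y hy
    have h1 := Fnc_deg (M := M) L (Polynomial.X ^ p - Polynomial.X : Polynomial K) hmon
      (by rw [hnd]; exact hp.ne_zero) hy (z := z y)
      (by rw [map_sub, map_pow, Polynomial.aeval_X, hz])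
    rwa [hnd] at h1)
  refine ⟨(Y0 ×ˢ Finset.range p).image (fun x => (x.2 : Ω) * x.1), ?_, ?_⟩
  · intro t ht
    obtain ⟨⟨y0, j⟩, hx, rfl⟩ := Finset.mem_image.1 ht
    have h1 := hY0 y0 (Finset.mem_product.1 hx).1
    exact mul_mem (natCast_mem L j) h1
  · intro y hy
    obtain ⟨y0, hy0, he⟩ := hY y hy
    have h1 := hY0 y0 hy0
    obtain ⟨j, hj, f, hf, hh⟩ := Fnc_grp_add (M := M) L hp hy h1 (hz y) (hz y0) (Fnc_iff he)
    exact ⟨(j : Ω) * y0, Finset.mem_image.2 ⟨(y0, j), Finset.mem_product.2 ⟨hy0, Finset.mem_range.2 hj⟩,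
      rfl⟩, f, hf, hh⟩

end Pool.Agent.H43.SG
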