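import Mathlib

/-!
Row Pck (MP_9924a2_lc, about 200 lines): choice of the automorphism.

PROOF.  For `x : Ω` (separable over `K`, `IsGalois K Ω`) and finite sets: every finite subset of `Ω` lies in a finite-dimensional normal `L ≤ Ω` (`normalClosure K (IntermediateField.adjoin K S) Ω`, or `FiniteGaloisIntermediateField.adjoin`,
`FiniteGaloisIntermediateField.subset_adjoin`; sups of such are such).  For such `L` and `τ` let `o(τ, L) = orderOf (τ.restrictNormal L) > 0`: `(∀ x ∈ L, (τ ^ n) x = x) ↔ o(τ, L) ∣ n`; if `L ≤ L'` then `o(τ, L) ∣ o(τ, L')`.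
Put `σ1 = σ0 ^ 2`; `σ1 ≠ 1` (by `htor`).
(A) Suppose an odd prime `p` divides `o(σ1, L0)` for some `L0`.  If `(p : K) ≠ 0` let `ζ ∈ Ω` be a primitive `p`-th root of unity (`IsSepClosed`: `HasEnoughRootsOfUnity` or a root of the separable polynomial `cyclotomic p Ω`), `L ⊇ L0 ∪ {ζ}`; otherwise `L = L0`.
 `N = o(σ1, L)`, `p ∣ N`, `σ = σ1 ^ (N / p)`: `(∀ x ∈ L, (σ ^ j) x = x) ↔ N ∣ (N / p) j ↔ p ∣ j`.  `r = 1`, `3 ≤ p`.  `σ ζ = ζ ^ a` (`IsPrimitiveRoot`: `(σ ζ) ^ p = 1`), `σ ^ p` fixes `L`, so `ζ = (σ ^ p) ζ = ζ ^ (a ^ p)`, and `ζ ^ (a ^ p) = ζ ^ a` (`a ^ p ≡ a mod p`: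
 `ZMod.pow_card`, `IsPrimitiveRoot.pow_eq_pow_iff_modEq`-like lemma `pow_eq_pow_iff_modEq`, or `ζ ^ p = 1`), so `σ ζ = ζ`.  Then `n = 2 (N / p)`.  The last clause is void (`p ≠ 2`).
(B) Suppose `4 ∣ o(σ1, L0)` for some `L0`: `p = 2`, `r = 2`.  If `(2 : K) ≠ 0` take `i ∈ Ω` with `i ^ 2 = -1` (`IsSepClosed.exists_pow_nat_eq`), `L ⊇ L0 ∪ {i}`; `N = o(σ1, L)`, `σ = σ1 ^ (N / 4)`, `n = 2 (N / 4)`.  `σ0 i = i` or `-i`, so `σ1 i = i` and `σ i = i`; `i` is a primitive fourth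
 root of unity (`IsPrimitiveRoot.mk_of_lt` or: `i ^ 4 = 1`, `i ^ 2 ≠ 1`), take `ζ = i`.
(C) Otherwise every `o(σ1, L0)` has no odd prime factor and is not divisible by `4`, so it is `1` or `2` (`Nat` argument: `o = 2 ^ a`, `Nat.eq_two_pow_or_exists_odd_prime_and_dvd`), so `σ1 ^ 2` fixes every `x ∈ Ω`, `σ1 ^ 2 = 1`, and `σ1 = 1` by `htor`, contradiction.
-/

set_option autoImplicit false

namespace Pool.Agent.H43.SG

universe u

/-- the order of the restriction -/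
theorem Pck_ord {K Ω : Type u} [Field K] [Field Ω] [Algebra K Ω] (L : IntermediateField K Ω)
    [FiniteDimensional K L] [Normal K L] (τ : Ω ≃ₐ[K] Ω) :
    ∃ o : ℕ, 0 < o ∧ ∀ n : ℕ, (∀ x ∈ L, (τ ^ n) x = x) ↔ o ∣ n := by
  refine ⟨orderOf (AlgEquiv.restrictNormalHom L τ), orderOf_pos _, fun n => ?_⟩
  rw [orderOf_dvd_iff_pow_eq_one, ← map_pow]
  constructor
  · intro h
    ext x
    rw [AlgEquiv.restrictNormalHom_apply]
    exact h x x.2
  · intro h x hx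
    have h2 := AlgEquiv.restrictNormalHom_apply L (τ ^ n) ⟨x, hx⟩
    rw [h] at h2
    exact h2.symm

theorem Pck_big {K Ω : Type u} [Field K] [Field Ω] [Algebra K Ω] [IsGalois K Ω]
    (L0 : IntermediateField K Ω) [FiniteDimensional K L0] [Normal K L0] (z : Ω) :
    ∃ L : IntermediateField K Ω, FiniteDimensional K L ∧ Normal K L ∧ L0 ≤ L ∧ z ∈ L := by
  let A := FiniteGaloisIntermediateField.adjoin K ({z} : Set Ω)
  have hz : z ∈ A.toIntermediateField :=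
    FiniteGaloisIntermediateField.subset_adjoin K ({z} : Set Ω) rfl
  refine ⟨L0 ⊔ A.toIntermediateField, ?_, ?_, le_sup_left, ?_⟩
  · infer_instance
  · infer_instance
  · exact (le_sup_right : A.toIntermediateField ≤ L0 ⊔ A.toIntermediateField) hz

/-- an element sent to a power is sent to iterated powers -/
theorem Pck_iter {K Ω : Type u} [Field K] [Field Ω] [Algebra K Ω] (σ : Ω ≃ₐ[K] Ω) {ζ : Ω}
    {a : ℕ} (h : σ ζ = ζ ^ a) (k : ℕ) : (σ ^ k) ζ = ζ ^ (a ^ k) := by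
  induction k with
  | zero => simp
  | succ k ih => rw [pow_succ, AlgEquiv.mul_apply, h, map_pow, ih, ← pow_mul, pow_succ]

theorem Pck_div {N q j : ℕ} (hN : 0 < N) (hq : q ∣ N) : N ∣ N / q * j ↔ q ∣ j := by
  obtain ⟨m, rfl⟩ := hq
  have hq0 : 0 < q := Nat.pos_of_mul_pos_right hN
  have hm : 0 < m := Nat.pos_of_mul_pos_left hN
  rw [Nat.mul_div_cancel_left m hq0, mul_comm q m]
  exact Nat.mul_dvd_mul_iff_left hm

/-- passing to a larger field and to a power -/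
theorem Pck_step {K Ω : Type u} [Field K] [Field Ω] [Algebra K Ω] [IsGalois K Ω]
    (τ : Ω ≃ₐ[K] Ω) (L0 : IntermediateField K Ω) [FiniteDimensional K L0] [Normal K L0]
    {q : ℕ} (hq : ∀ n : ℕ, (∀ x ∈ L0, (τ ^ n) x = x) → q ∣ n) (z : Ω) :
    ∃ (m : ℕ) (L : IntermediateField K Ω), FiniteDimensional K L ∧ Normal K L ∧ z ∈ L ∧
      ∀ j : ℕ, (∀ x ∈ L, ((τ ^ m) ^ j) x = x) ↔ q ∣ j := by
  obtain ⟨L, i1, i2, h1, h2⟩ := Pck_big L0 z
  obtain ⟨N, hN, ho⟩ := Pck_ord L τ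
  have hqN : q ∣ N := hq N fun x hx => (ho N).2 dvd_rfl x (h1 hx)
  refine ⟨N / q, L, i1, i2, h2, fun j => ?_⟩
  rw [← Pck_div hN hqN, ← ho, pow_mul]

theorem Pck_zeta {K Ω : Type u} [Field K] [Field Ω] [Algebra K Ω] (σ : Ω ≃ₐ[K] Ω)
    {p : ℕ} (hp : p.Prime) {ζ : Ω} (hζ : IsPrimitiveRoot ζ p) (h : (σ ^ p) ζ = ζ) : σ ζ = ζ := by
  have h1 : (σ ζ) ^ p = 1 := by rw [← map_pow, hζ.pow_eq_one, map_one]
  haveI : NeZero p := ⟨hp.ne_zero⟩
  obtain ⟨a, _, ha⟩ := hζ.eq_pow_of_pow_eq_one h1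
  haveI : Fact p.Prime := ⟨hp⟩
  have h2 : a ^ p ≡ a [MOD p] := by
    rw [← ZMod.natCast_eq_natCast_iff]
    push_cast
    exact ZMod.pow_card _
  have h3 : ζ ^ (a ^ p) = ζ ^ a := pow_eq_pow_of_modEq h2 hζ.pow_eq_one
  rw [← ha, ← h3, ← Pck_iter σ ha.symm p, h]

theorem pck {K Ω : Type u} [Field K] [Field Ω] [Algebra K Ω] [IsGalois K Ω] [IsSepClosed Ω]
    (htor : ∀ c : Ω ≃ₐ[K] Ω, c ^ 2 = 1 → c = 1) (σ0 : Ω ≃ₐ[K] Ω) (h1 : σ0 ≠ 1) :
    ∃ (n p r : ℕ) (L : IntermediateField K Ω), FiniteDimensional K L ∧ Normal K L ∧ p.Prime ∧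
      1 ≤ r ∧ 3 ≤ p ^ r ∧ (∀ j : ℕ, (∀ x ∈ L, ((σ0 ^ n) ^ j) x = x) ↔ p ^ r ∣ j) ∧
      ((p : K) ≠ 0 → ∃ ζ ∈ L, (σ0 ^ n) ζ = ζ ∧ IsPrimitiveRoot ζ (p ^ r)) ∧
      ((p : K) ≠ 0 → p = 2 → ∃ i ∈ L, (σ0 ^ n) i = i ∧ i ^ 2 = -1) := by
  have hsq : ∀ m : ℕ, σ0 ^ (2 * m) = (σ0 ^ 2) ^ m := fun m => pow_mul σ0 2 m
  by_cases hA : ∃ (p : ℕ) (L0 : IntermediateField K Ω), p.Prime ∧ p ≠ 2 ∧
      FiniteDimensional K L0 ∧ Normal K L0 ∧
      ∀ n : ℕ, (∀ x ∈ L0, ((σ0 ^ 2) ^ n) x = x) → p ∣ n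
  · obtain ⟨p, L0, hp, hp2, j1, j2, hd⟩ := hA
    have hp3 : 3 ≤ p ^ 1 := by
      rw [pow_one]
      have := hp.two_le
      omega
    by_cases hc : (p : K) ≠ 0
    · have hcΩ : (p : Ω) ≠ 0 := by
        intro h0
        apply hc
        apply (algebraMap K Ω).injective
        rw [map_natCast, map_zero, h0]
      haveI : NeZero (p : Ω) := ⟨hcΩ⟩
      haveI : NeZero p := ⟨hp.ne_zero⟩
      obtain ⟨ζ, hζ⟩ := HasEnoughRootsOfUnity.exists_primitiveRoot Ω p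
      obtain ⟨m, L, k1, k2, hz, hL⟩ := Pck_step (σ0 ^ 2) L0 hd ζ
      have hfix : (σ0 ^ (2 * m)) ζ = ζ := by
        rw [hsq]
        exact Pck_zeta _ hp hζ ((hL p).2 dvd_rfl ζ hz)
      refine ⟨2 * m, p, 1, L, k1, k2, hp, le_rfl, hp3, ?_, ?_, ?_⟩
      · intro j
        rw [hsq, pow_one]
        exact hL j
      · intro _
        exact ⟨ζ, hz, hfix, by rwa [pow_one]⟩
      · intro _ h2
        exact absurd h2 hp2
    · obtain ⟨m, L, k1, k2, hz, hL⟩ := Pck_step (σ0 ^ 2) L0 hd 0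
      refine ⟨2 * m, p, 1, L, k1, k2, hp, le_rfl, hp3, ?_, ?_, ?_⟩
      · intro j
        rw [hsq, pow_one]
        exact hL j
      · intro h
        exact absurd h hc
      · intro _ h2
        exact absurd h2 hp2
  · by_cases hB : ∃ L0 : IntermediateField K Ω, FiniteDimensional K L0 ∧ Normal K L0 ∧
        ∀ n : ℕ, (∀ x ∈ L0, ((σ0 ^ 2) ^ n) x = x) → 4 ∣ n
    · obtain ⟨L0, j1, j2, hd⟩ := hB
      by_cases hc : ((2 : ℕ) : K) ≠ 0
      · have hcΩ : ((2 : ℕ) : Ω) ≠ 0 := by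
          intro h0
          apply hc
          apply (algebraMap K Ω).injective
          rw [map_natCast, map_zero, h0]
        haveI : NeZero ((2 : ℕ) : Ω) := ⟨hcΩ⟩
        obtain ⟨i, hi⟩ := IsSepClosed.exists_pow_nat_eq (-1 : Ω) 2
        have h2Ω : (2 : Ω) ≠ 0 := by exact_mod_cast hcΩ
        have hii : (σ0 ^ 2) i = i := by
          have e1 : (σ0 i) ^ 2 = i ^ 2 := by
            rw [← map_pow, hi, map_neg, map_one]
          have e2 : (σ0 ^ 2) i = σ0 (σ0 i) := by rw [pow_two, AlgEquiv.mul_apply]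
          rcases sq_eq_sq_iff_eq_or_eq_neg.1 e1 with h | h
          · rw [e2, h, h]
          · rw [e2, h, map_neg, h, neg_neg]
        obtain ⟨m, L, k1, k2, hz, hL⟩ := Pck_step (σ0 ^ 2) L0 hd i
        have hfix : (σ0 ^ (2 * m)) i = i := by
          rw [hsq]
          have e3 : ((σ0 ^ 2)) i = i ^ 1 := by rw [pow_one, hii]
          rw [Pck_iter _ e3 m, one_pow, pow_one]
        have hne : ¬ i ^ 2 ^ 1 = 1 := by
          rw [pow_one, hi]
          intro h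
          apply h2Ω
          linear_combination -h
        have hpr : IsPrimitiveRoot i (2 ^ 2) := by
          have h4 : i ^ 2 ^ (1 + 1) = 1 := by
            have : i ^ 2 ^ (1 + 1) = (i ^ 2) ^ 2 := by rw [← pow_mul]; norm_num
            rw [this, hi]
            ring
          haveI : Fact (Nat.Prime 2) := ⟨Nat.prime_two⟩
          have h5 := orderOf_eq_prime_pow hne h4
          have h6 := IsPrimitiveRoot.orderOf i
          rw [h5] at h6
          exact h6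
        refine ⟨2 * m, 2, 2, L, k1, k2, Nat.prime_two, by norm_num, by norm_num, ?_, ?_, ?_⟩
        · intro j
          rw [hsq]
          exact hL j
        · intro _
          exact ⟨i, hz, hfix, hpr⟩
        · intro _ _
          exact ⟨i, hz, hfix, hi⟩
      · obtain ⟨m, L, k1, k2, hz, hL⟩ := Pck_step (σ0 ^ 2) L0 hd 0
        refine ⟨2 * m, 2, 2, L, k1, k2, Nat.prime_two, by norm_num, by norm_num, ?_, ?_, ?_⟩
        · intro j
          rw [hsq]
          exact hL j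
        · intro h
          exact absurd h hc
        · intro h
          exact absurd h hc
    · exfalso
      apply h1
      have key : (σ0 ^ 2) ^ 2 = 1 := by
        ext x
        obtain ⟨L, i1, i2, _, hx⟩ := Pck_big (⊥ : IntermediateField K Ω) x
        obtain ⟨o, ho, h2⟩ := Pck_ord L (σ0 ^ 2)
        have h3 : ∀ p : ℕ, p.Prime → p ∣ o → p = 2 := by
          intro p hp hpo
          by_contra hne
          exact hA ⟨p, L, hp, hne, i1, i2, fun n hn => hpo.trans ((h2 n).1 hn)⟩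
        have h4 : ¬ 4 ∣ o := fun h => hB ⟨L, i1, i2, fun n hn => h.trans ((h2 n).1 hn)⟩
        have h5 : o ∣ 2 := by
          rcases Nat.eq_two_pow_or_exists_odd_prime_and_dvd o with ⟨k, hk⟩ | ⟨p, hp, hpo, hodd⟩
          · rcases k with _ | _ | k
            · rw [hk]; norm_num
            · rw [hk]; norm_num
            · exfalso
              apply h4
              rw [hk, pow_succ, pow_succ]
              exact ⟨2 ^ k, by ring⟩
          · have := h3 p hp hpo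
            rw [this] at hodd
            exact absurd hodd (by decide)
        exact (h2 2).2 h5 x hx
      exact htor _ (htor _ key)

end Pool.Agent.H43.SG
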