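import Pool.Agent.H43.SG.Df

/-!
Row Tor (MP_9924a2_lc, about 200 lines): the Galois group of a stable field has no element of order two.

PROOF.
`tor_real` (`K` is formally real for eight squares): `Dfn` of the set of `v : Unit ⊕ Unit → K` with `v (inr ()) ≠ v (inl ())` and `∃ t : Fin 4 → K, v (inr ()) - v (inl ()) = ∑ t_i ^ 2` (`Dfn.eq`, compl, inter, `Set.Definable.exists_of_finite`, see
 `dfn_psi` in Pool/Agent/H7/ST/A.lean); by `Dfn.noLadder` there is no ladder of some length `n`.  Ladder: `a i = (i : K)`, `b j = (j : K)`.  First `(n : K) ≠ 0` for `n ≥ 1`: take the least `n ≥ 1` with `(n : K) = 0`, `n = a^2 + b^2 + c^2 + d^2`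
 (`Nat.sum_four_squares`), by `h` (with four zeros) the casts of `a, b, c, d` are `0`; one of them, say `a`, is `≥ 1`, `a ≤ n`, so `a = n`, `n^2 ≤ n`, `n = 1`, contradiction.  If `i < j`: `j - i` is a sum of four squares of naturals and the casts of `i, j` differ.
 If `R (a i) (b j)` and `j ≤ i`: `j = i` contradicts `≠`; `j < i`: `i - j = ∑ b_l ^ 2` (naturals), so `∑ t_l ^ 2 + ∑ b_l ^ 2 = 0`, by `h` all `t_l = 0`, so `v (inr) = v (inl)`, contradiction.
`tor_two`: suppose `c x0 ≠ x0`, `t = x0 + c x0`.  Characteristic `2`: `t ≠ 0`, `c t = t`, `α = x0 / t` has `c α = α + 1`; `a = α ^ 2 + α` is fixed.  `X ^ 2 + X + α a` (derivative `1`: separable) has a root `β` (`IsSepClosed.exists_root`); `u = c β + β`: `c u = u` and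
 `u ^ 2 + u = c (α a) + α a = a = α ^ 2 + α`, so `(u + α)(u + α + 1) = 0`, `α = u` or `α = u + 1`, both fixed by `c`, contradiction.
 Characteristic not `2`: `α = x0 - c x0 ≠ 0`, `c α = -α`.  `i` with `i ^ 2 = -1` (`IsSepClosed.exists_pow_nat_eq`).  If `c i = i`: `β ^ 2 = α`; `(c β) ^ 2 = -α = (i β) ^ 2`, `c β = i β` or `-(i β)`, in both cases `c (c β) = i^2 β = -β ≠ β`, contradiction to `hc`.
 If `c i = -i`: for `a, b` with `c a = a`, `c b = b` there is `d` with `c d = d`, `d ^ 2 = a ^ 2 + b ^ 2`: `γ ^ 2 = a + b i`, `d = γ * c γ`, `d ^ 2 = (a + b i)(a - b i)`.  By induction every finite sum of squares of fixed elements is the square of a fixed element.  `-1` is not the square of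
 a fixed element (its square roots are `i` and `-i`).  So for `f : Fin 8 → K` with `∑ f_i ^ 2 = 0` all `f_i = 0` (if `f_j ≠ 0`: `∑_{i ≠ j} f_i ^ 2 = g ^ 2`, `(g / f_j) ^ 2 = -1`, `g / f_j` fixed): contradiction to `tor_real`.
-/

set_option autoImplicit false

namespace Pool.Agent.H43.SG

open Pool.Agent.H7.ST

universe u

private theorem Tor_dfn {K : Type u} [Field K] [FirstOrder.Ring.CompatibleRing K] :
    Dfn {v : Unit ⊕ Unit → K | v (Sum.inr ()) ≠ v (Sum.inl ()) ∧
      ∃ t : Fin 4 → K, v (Sum.inr ()) = v (Sum.inl ()) + ∑ i, t i * t i} := by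
  have h1 : Dfn {w : (Unit ⊕ Unit) ⊕ Fin 4 → K |
      w (Sum.inl (Sum.inr ())) = w (Sum.inl (Sum.inl ())) +
        ∑ i, w (Sum.inr i) * w (Sum.inr i)} := by
    apply Dfn.eq
    · exact PolyFun.coord _
    · apply PolyFun.add (PolyFun.coord _)
      exact PolyFun.sum _ fun i => (PolyFun.coord _).mul (PolyFun.coord _)
  have h2 : Dfn {v : Unit ⊕ Unit → K |
      ∃ t : Fin 4 → K, v (Sum.inr ()) = v (Sum.inl ()) + ∑ i, t i * t i} :=
    Set.Definable.exists_of_finite h1
  have h3 : Dfn {v : Unit ⊕ Unit → K | v (Sum.inr ()) = v (Sum.inl ())} :=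
    Dfn.eq (PolyFun.coord _) (PolyFun.coord _)
  exact (Set.Definable.compl h3).inter h2

theorem tor_real {K : Type u} [Field K] [FirstOrder.Ring.CompatibleRing K]
    (h : ∀ f : Fin 8 → K, ∑ i, f i ^ 2 = 0 → ∀ i, f i = 0) : ¬ StableField K := by
  intro hK
  have hchar : ∀ n : ℕ, (n : K) = 0 → n = 0 := by
    intro n
    induction n using Nat.strong_induction_on with
    | _ n ih =>
      intro hn
      obtain ⟨a, b, c, d, habcd⟩ := Nat.sum_four_squares n
      have hs : ∑ i, (![(a : K), (b : K), (c : K), (d : K), 0, 0, 0, 0] : Fin 8 → K) i ^ 2 = 0 := by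
        have h1 : (a : K) ^ 2 + (b : K) ^ 2 + (c : K) ^ 2 + (d : K) ^ 2 = 0 := by
          rw [← hn, ← habcd]
          push_cast
          ring
        rw [Fin.sum_univ_eight]
        change (a : K) ^ 2 + (b : K) ^ 2 + (c : K) ^ 2 + (d : K) ^ 2 + 0 ^ 2 + 0 ^ 2 + 0 ^ 2 +
          0 ^ 2 = 0
        rw [h1]
        ring
      have h1 := h _ hs
      have ha : (a : K) = 0 := h1 0
      have hb : (b : K) = 0 := h1 1
      have hc : (c : K) = 0 := h1 2
      have hd : (d : K) = 0 := h1 3
      have key : ∀ x : ℕ, (x : K) = 0 → x ^ 2 ≤ n → x = 0 := by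
        intro x hx hxn
        by_cases hlt : x < n
        · exact ih x hlt hx
        · have h2 : x ^ 2 ≤ x := hxn.trans (not_lt.1 hlt)
          by_contra hx0
          have h3 : x = 1 := by
            have h4 : 1 ≤ x := Nat.one_le_iff_ne_zero.2 hx0
            nlinarith
          rw [h3, Nat.cast_one] at hx
          exact one_ne_zero hx
      have a0 := key a ha (by omega)
      have b0 := key b hb (by omega)
      have c0 := key c hc (by omega)
      have d0 := key d hd (by omega)
      rw [← habcd, a0, b0, c0, d0]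
      norm_num
  obtain ⟨n, hn⟩ := (Tor_dfn (K := K)).noLadder hK
  apply hn
  refine ⟨fun i _ => ((i : ℕ) : K), fun j _ => ((j : ℕ) : K), ?_⟩
  intro i j
  have hsq : ∀ p q : ℕ, p ≤ q → ∃ t : Fin 4 → K, (q : K) = (p : K) + ∑ l, t l * t l := by
    intro p q hpq
    obtain ⟨a, b, c, d, habcd⟩ := Nat.sum_four_squares (q - p)
    refine ⟨![(a : K), (b : K), (c : K), (d : K)], ?_⟩
    rw [Fin.sum_univ_four]
    change (q : K) = (p : K) + ((a : K) * (a : K) + (b : K) * (b : K) + (c : K) * (c : K) +
      (d : K) * (d : K))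
    have h1 : q = p + (a ^ 2 + b ^ 2 + c ^ 2 + d ^ 2) := by omega
    have h2 : (q : K) = ((p + (a ^ 2 + b ^ 2 + c ^ 2 + d ^ 2) : ℕ) : K) := congrArg Nat.cast h1
    rw [h2]
    push_cast
    ring
  have hinj : ∀ p q : ℕ, p ≤ q → (q : K) = (p : K) → q = p := by
    intro p q hpq he
    have h1 : ((q - p : ℕ) : K) = 0 := by
      rw [Nat.cast_sub hpq, he, sub_self]
    have h2 := hchar _ h1
    omega
  constructor
  · rintro ⟨hne, t, ht⟩
    have hne' : ((j : ℕ) : K) ≠ ((i : ℕ) : K) := hne
    have ht' : ((j : ℕ) : K) = ((i : ℕ) : K) + ∑ l, t l * t l := ht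
    by_contra hlt
    have hji : (j : ℕ) ≤ (i : ℕ) := not_lt.1 hlt
    obtain ⟨s, hs⟩ := hsq _ _ hji
    have h1 : ∑ l, (![t 0, t 1, t 2, t 3, s 0, s 1, s 2, s 3] : Fin 8 → K) l ^ 2 = 0 := by
      rw [Fin.sum_univ_eight]
      change t 0 ^ 2 + t 1 ^ 2 + t 2 ^ 2 + t 3 ^ 2 + s 0 ^ 2 + s 1 ^ 2 + s 2 ^ 2 + s 3 ^ 2 = 0
      rw [Fin.sum_univ_four] at hs ht'
      linear_combination -hs - ht'
    have h2 := h _ h1
    have t0 : t 0 = 0 := h2 0
    have t1 : t 1 = 0 := h2 1
    have t2 : t 2 = 0 := h2 2
    have t3 : t 3 = 0 := h2 3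
    apply hne'
    rw [ht', Fin.sum_univ_four, t0, t1, t2, t3]
    ring
  · intro hij
    have hij' : (i : ℕ) < (j : ℕ) := hij
    refine ⟨?_, ?_⟩
    · intro he
      have he' : ((j : ℕ) : K) = ((i : ℕ) : K) := he
      have := hinj _ _ hij'.le he'
      omega
    · exact hsq _ _ hij'.le

theorem tor_two {K Ω : Type u} [Field K] [FirstOrder.Ring.CompatibleRing K] [Field Ω]
    [Algebra K Ω] [IsSepClosed Ω] (hK : StableField K) (c : Ω ≃ₐ[K] Ω) (hc : ∀ x, c (c x) = x)
    (x : Ω) : c x = x := by
  by_contra hx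
  by_cases h2 : (2 : Ω) = 0
  · -- characteristic two
    have hneg : ∀ y : Ω, -y = y := by
      intro y
      linear_combination (-y) * h2
    obtain ⟨t, ht⟩ : ∃ t, t = x + c x := ⟨_, rfl⟩
    have ht0 : t ≠ 0 := by
      intro h0
      apply hx
      rw [h0] at ht
      exact (eq_neg_of_add_eq_zero_right ht.symm).trans (hneg x)
    have hct : c t = t := by
      rw [ht, map_add, hc, add_comm]
    obtain ⟨α, hα⟩ : ∃ α, α = x / t := ⟨_, rfl⟩
    have hcα : c α = α + 1 := by
      have h1 : c α = c x / t := by rw [hα, map_div₀, hct]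
      have h3 : c x = t - x := by rw [ht]; ring
      rw [h1, h3, hα, sub_div, div_self ht0, sub_eq_add_neg, hneg, add_comm]
    obtain ⟨a, ha⟩ : ∃ a, a = α ^ 2 + α := ⟨_, rfl⟩
    have hca : c a = a := by
      rw [ha, map_add, map_pow, hcα]
      linear_combination (α + 1) * h2
    obtain ⟨β, hβ⟩ : ∃ β : Ω, β ^ 2 + β + α * a = 0 := by
      have hdeg : (Polynomial.X ^ 2 + Polynomial.X + Polynomial.C (α * a) :
          Polynomial Ω).degree ≠ 0 := by
        have : (Polynomial.X ^ 2 + Polynomial.X + Polynomial.C (α * a) :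
          Polynomial Ω).degree = 2 := by
          compute_degree!
        rw [this]
        decide
      have hsep : (Polynomial.X ^ 2 + Polynomial.X + Polynomial.C (α * a) :
          Polynomial Ω).Separable := by
        unfold Polynomial.Separable
        have hder : Polynomial.derivative (Polynomial.X ^ 2 + Polynomial.X +
            Polynomial.C (α * a) : Polynomial Ω) = 1 := by
          have h3 : (Polynomial.C (2 : Ω)) = 0 := by rw [h2, map_zero]
          simp only [Polynomial.derivative_add, Polynomial.derivative_X_pow,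
            Polynomial.derivative_X, Polynomial.derivative_C, add_zero]
          have h4 : ((2 : ℕ) : Ω) = 0 := by exact_mod_cast h2
          rw [h4, map_zero, zero_mul, zero_add]
        rw [hder]
        exact isCoprime_one_right
      obtain ⟨β, hβ⟩ := IsSepClosed.exists_root _ hdeg hsep
      refine ⟨β, ?_⟩
      simpa [Polynomial.IsRoot] using hβ
    obtain ⟨u, hu⟩ : ∃ u, u = c β + β := ⟨_, rfl⟩
    have hcu : c u = u := by
      rw [hu, map_add, hc, add_comm]
    have hcβ : (c β) ^ 2 + c β + (α + 1) * a = 0 := by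
      have h3 := congrArg c hβ
      rw [map_add, map_add, map_pow, map_mul, map_zero, hcα, hca] at h3
      exact h3
    have hprod : (u + α) * (u + α + 1) = 0 := by
      rw [hu]
      rw [ha] at hβ hcβ
      linear_combination hβ + hcβ + (c β * β + (c β + β) * α - α * (α ^ 2 + α)) * h2
    rcases mul_eq_zero.mp hprod with h3 | h3
    · have h4 : u = α := by
        rw [← hneg α]
        exact eq_neg_of_add_eq_zero_left h3
      rw [h4, hcα] at hcu
      exact one_ne_zero (add_eq_left.1 hcu)
    · have h4 : u = α + 1 := by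
        rw [← hneg (α + 1)]
        apply eq_neg_of_add_eq_zero_left
        rw [← h3]
        ring
      rw [h4, map_add, map_one, hcα] at hcu
      have h5 : (1 : Ω) = 0 := by linear_combination hcu
      exact one_ne_zero h5
  · -- characteristic not two
    have hNZ : NeZero ((2 : ℕ) : Ω) := ⟨by exact_mod_cast h2⟩
    obtain ⟨α, hα⟩ : ∃ α, α = x - c x := ⟨_, rfl⟩
    have hα0 : α ≠ 0 := by
      intro h0
      apply hx
      rw [hα] at h0
      exact (sub_eq_zero.1 h0).symm
    have hcα : c α = -α := by
      rw [hα, map_sub, hc]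
      ring
    obtain ⟨i, hi⟩ := IsSepClosed.exists_pow_nat_eq (-1 : Ω) 2
    have hi0 : i ≠ 0 := by
      intro h0
      rw [h0] at hi
      norm_num at hi
    have hci : (c i - i) * (c i + i) = 0 := by
      have h3 := congrArg c hi
      rw [map_pow, map_neg, map_one] at h3
      linear_combination h3 - hi
    rcases mul_eq_zero.mp hci with h3 | h3
    · have hcii : c i = i := sub_eq_zero.1 h3
      obtain ⟨β, hβ⟩ := IsSepClosed.exists_pow_nat_eq α 2
      have hcβ : (c β - i * β) * (c β + i * β) = 0 := by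
        have h4 := congrArg c hβ
        rw [map_pow, hcα] at h4
        linear_combination h4 + hβ - β ^ 2 * hi
      have hββ : β = -β := by
        rcases mul_eq_zero.mp hcβ with h4 | h4
        · have h5 : c β = i * β := sub_eq_zero.1 h4
          have h6 := hc β
          rw [h5, map_mul, hcii, h5] at h6
          linear_combination -h6 + β * hi
        · have h5 : c β = -(i * β) := eq_neg_of_add_eq_zero_left h4
          have h6 := hc β
          rw [h5, map_neg, map_mul, hcii, h5] at h6
          linear_combination -h6 + β * hi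
      have h7 : (2 : Ω) * β = 0 := by linear_combination hββ
      rcases mul_eq_zero.mp h7 with h8 | h8
      · exact h2 h8
      · rw [h8] at hβ
        apply hα0
        rw [← hβ]
        norm_num
    · have hcii : c i = -i := eq_neg_of_add_eq_zero_left h3
      have hstep : ∀ a b : Ω, c a = a → c b = b → ∃ d, c d = d ∧ d ^ 2 = a ^ 2 + b ^ 2 := by
        intro a b ha hb
        obtain ⟨γ, hγ⟩ := IsSepClosed.exists_pow_nat_eq (a + b * i) 2
        refine ⟨γ * c γ, ?_, ?_⟩
        · rw [map_mul, hc, mul_comm]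
        · have h4 := congrArg c hγ
          rw [map_pow, map_add, map_mul, ha, hb, hcii] at h4
          rw [mul_pow, hγ, h4]
          linear_combination (-b ^ 2) * hi
      have hfix : ∀ y : Ω, c y = y → y ^ 2 ≠ -1 := by
        intro y hy h4
        have h5 : (y - i) * (y + i) = 0 := by linear_combination h4 - hi
        rcases mul_eq_zero.mp h5 with h6 | h6
        · have h7 : y = i := sub_eq_zero.1 h6
          rw [h7, hcii] at hy
          have h8 : (2 : Ω) * i = 0 := by linear_combination -hy
          rcases mul_eq_zero.mp h8 with h9 | h9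
          · exact h2 h9
          · exact hi0 h9
        · have h7 : y = -i := eq_neg_of_add_eq_zero_left h6
          rw [h7, map_neg, hcii] at hy
          have h8 : (2 : Ω) * i = 0 := by linear_combination hy
          rcases mul_eq_zero.mp h8 with h9 | h9
          · exact h2 h9
          · exact hi0 h9
      refine tor_real (K := K) ?_ hK
      intro f hf j
      by_contra hfj
      have hsum : ∀ s : Finset (Fin 8), ∃ g : Ω, c g = g ∧
          g ^ 2 = ∑ l ∈ s, (algebraMap K Ω (f l)) ^ 2 := by
        intro s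
        classical
        induction s using Finset.induction_on with
        | empty => exact ⟨0, map_zero c, by simp⟩
        | insert l s hl ih =>
          obtain ⟨g, hg, hg2⟩ := ih
          obtain ⟨d, hd, hd2⟩ := hstep (algebraMap K Ω (f l)) g (c.commutes _) hg
          refine ⟨d, hd, ?_⟩
          rw [hd2, hg2, Finset.sum_insert hl]
      obtain ⟨g, hg, hg2⟩ := hsum (Finset.univ.erase j)
      have hFj : algebraMap K Ω (f j) ≠ 0 := by
        intro h0
        exact hfj ((map_eq_zero (algebraMap K Ω)).1 h0)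
      have htot : (algebraMap K Ω (f j)) ^ 2 + g ^ 2 = 0 := by
        rw [hg2, Finset.add_sum_erase Finset.univ (fun l => (algebraMap K Ω (f l)) ^ 2)
          (Finset.mem_univ j)]
        have h4 := congrArg (algebraMap K Ω) hf
        rw [map_sum, map_zero] at h4
        rw [← h4]
        apply Finset.sum_congr rfl
        intro l _
        rw [map_pow]
      apply hfix (g / algebraMap K Ω (f j))
      · rw [map_div₀, hg, c.commutes]
      · rw [div_pow, div_eq_iff (pow_ne_zero 2 hFj)]
        linear_combination htot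

end Pool.Agent.H43.SG
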