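import Pool.Agent.H43.SG.Cor
import Pool.Agent.H43.SG.Tor
import Pool.Agent.H43.SG.Pck
import Pool.Agent.H43.SG.Cla
import Pool.Agent.H43.SG.Fnc

/-! Galois groups of stable fields: assembly. -/

set_option autoImplicit false

namespace Pool.Agent.H43.SG

open Pool.Agent.H7.ST
open scoped commutatorElement

universe u

/-- Common part. -/
theorem mn_core {K Ω : Type u} [Field K] [FirstOrder.Ring.CompatibleRing K] [Infinite K]
    [Field Ω] [Algebra K Ω] [IsGalois K Ω] [IsSepClosed Ω] (hK : StableField K)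
    (N : Subgroup (Ω ≃ₐ[K] Ω)) (e : ℕ) (he : e ≤ 2)
    (hmul : ∀ (L : IntermediateField K Ω) (p : ℕ) (ζ : Ω) (σ : Ω ≃ₐ[K] Ω), FiniteDimensional K L →
      Normal K L → p.Prime → (p : K) ≠ 0 → ζ ∈ L → σ ζ = ζ → IsPrimitiveRoot ζ p → σ ∈ N →
      ∃ T : Finset Ω, ∀ y ∈ L, y ≠ 0 → ∃ t ∈ T, t ∈ L ∧ ∃ w ∈ L, w ≠ 0 ∧
        (fun z : Ω => σ z / z)^[e] y = t * w ^ p)
    (hadd : ∀ (L : IntermediateField K Ω) (p : ℕ) (σ : Ω ≃ₐ[K] Ω), FiniteDimensional K L →
      Normal K L → p.Prime → CharP K p → σ ∈ N →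
      ∃ T : Finset Ω, ∀ y ∈ L, ∃ t ∈ T, t ∈ L ∧ ∃ w ∈ L,
        (fun z : Ω => σ z - z)^[e] y = t + (w ^ p - w)) : N = ⊥ := by
  rw [Subgroup.eq_bot_iff_forall]
  intro σ0 hσ0
  by_contra h1
  have htor : ∀ c : Ω ≃ₐ[K] Ω, c ^ 2 = 1 → c = 1 := by
    intro c hc
    ext x
    refine tor_two hK c (fun x => ?_) x
    have := DFunLike.congr_fun hc x
    rw [pow_two] at this
    exact this
  obtain ⟨n, p, r, L, hfd, hn, hp, hr, h3, hord, hζ, hi⟩ := pck htor σ0 h1
  have hσ : σ0 ^ n ∈ N := N.pow_mem hσ0 n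
  have he' : e ≤ p ^ r - 1 := by omega
  by_cases hpK : (p : K) = 0
  · have hch : CharP K p := (CharP.charP_iff_prime_eq_zero hp).2 hpK
    obtain ⟨T, hT⟩ := hadd L p (σ0 ^ n) hfd hn hp hch hσ
    exact cor_add hK L (σ0 ^ n) hp hr he' hord T hT
  · obtain ⟨ζ, hζL, hζσ, hζp⟩ := hζ hpK
    have hpr : p ^ r = p ^ (r - 1) * p := by
      rw [← pow_succ]
      congr 1
      omega
    have hζ' : IsPrimitiveRoot (ζ ^ p ^ (r - 1)) p :=
      hζp.pow (pow_pos hp.pos r) hpr
    obtain ⟨T, hT⟩ := hmul L p (ζ ^ p ^ (r - 1)) (σ0 ^ n) hfd hn hp hpK (pow_mem hζL _)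
      (by rw [map_pow, hζσ]) hζ' hσ
    exact cor_mul hK L (σ0 ^ n) hp hr he' hord hζL hζσ hζp (hi hpK) T hT

theorem bounded_galois {K : Type u} [Field K] [FirstOrder.Ring.CompatibleRing K] [Infinite K]
    (hK : StableField K) (M : Type u) [Field M] [Algebra K M] [IsGalois K M]
    (hM : ¬ IsSepClosed M) : ∃ n : ℕ, n ≠ 0 ∧
      {E : IntermediateField M (SeparableClosure M) | Module.finrank M E = n}.Infinite := by
  by_contra hcon
  have hfin : ∀ n : ℕ, n ≠ 0 →
      {E : IntermediateField M (SeparableClosure M) | Module.finrank M E = n}.Finite := by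
    intro n hn
    by_contra h
    exact hcon ⟨n, hn, h⟩
  let Ω := SeparableClosure M
  have : Algebra.IsSeparable K Ω := Algebra.IsSeparable.trans K M Ω
  have hcl : IsSepClosure K Ω := ⟨inferInstance, inferInstance⟩
  have hgal : IsGalois K Ω := IsSepClosure.isGalois
  let M' : IntermediateField K Ω := (IsScalarTower.toAlgHom K M Ω).fieldRange
  have hM' : IsGalois K M' :=
    IsGalois.of_algEquiv (AlgEquiv.ofInjectiveField (IsScalarTower.toAlgHom K M Ω))
  let N : Subgroup (Ω ≃ₐ[K] Ω) := M'.fixingSubgroup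
  have hNn : N.Normal := inferInstance
  -- elements of `N` as automorphisms over `M`
  have toM : ∀ h ∈ N, ∃ h' : Ω ≃ₐ[M] Ω, ∀ x, h' x = h x := by
    intro h hh
    refine ⟨AlgEquiv.ofRingEquiv (f := h.toRingEquiv) ?_, fun x => rfl⟩
    intro m
    exact (IntermediateField.mem_fixingSubgroup_iff M' h).1 hh _ ⟨m, rfl⟩
  have fromM : ∀ h' : Ω ≃ₐ[M] Ω, ∃ h ∈ N, ∀ x, h x = h' x := by
    intro h'
    refine ⟨h'.restrictScalars K, ?_, fun x => rfl⟩
    rw [IntermediateField.mem_fixingSubgroup_iff]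
    rintro _ ⟨m, rfl⟩
    exact h'.commutes m
  have hN : N = ⊥ := by
    refine mn_core hK N 1 (by norm_num) ?_ ?_
    · intro L p ζ σ hfd hn hp hpK hζL hζσ hζ hσ
      have hpΩ : (p : Ω) ≠ 0 := by
        have := (map_ne_zero (algebraMap K Ω)).2 hpK
        rwa [map_natCast] at this
      obtain ⟨T, hT1, hT⟩ := fnc_mul (K := K) (M := M) (Ω := Ω) hfin L hp hpΩ hζL hζ
      have hσL : ∀ x ∈ L, σ x ∈ L := by
        intro x hx
        have := AlgEquiv.restrictNormal_commutes σ L ⟨x, hx⟩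
        rw [show algebraMap L Ω ⟨x, hx⟩ = x from rfl] at this
        rw [← this]
        exact (σ.restrictNormal L ⟨x, hx⟩).2
      classical
      refine ⟨T.image fun t => σ t / t, fun y hy hy0 => ?_⟩
      obtain ⟨t, ht, f, hf0, hyt, hf⟩ := hT y hy hy0
      have hfL : f ^ p ∈ L := by
        have : f ^ p = y / t := by
          rw [hyt, mul_div_cancel_left₀ _ (hT1 t ht).2]
        rw [this]
        exact div_mem hy (hT1 t ht).1
      obtain ⟨w, hwL, hw0, hw⟩ := cla_mul N L hσ hp hζL hζσ hζ hf0 hfL (by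
        intro h hh hx
        obtain ⟨h', hh'⟩ := toM h hh
        rw [← hh']
        exact hf h' fun x hx' => by rw [hh']; exact hx x hx')
      refine ⟨_, Finset.mem_image_of_mem _ ht, div_mem (hσL t (hT1 t ht).1) (hT1 t ht).1, w, hwL,
        hw0, ?_⟩
      rw [← hw]
      simp only [Function.iterate_one]
      rw [hyt, map_mul, mul_div_mul_comm]
    · intro L p σ hfd hn hp hch hσ
      have hchΩ : CharP Ω p := charP_of_injective_algebraMap (algebraMap K Ω).injective p
      obtain ⟨T, hT1, hT⟩ := fnc_add (K := K) (M := M) (Ω := Ω) hfin L hp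
      have hσL : ∀ x ∈ L, σ x ∈ L := by
        intro x hx
        have := AlgEquiv.restrictNormal_commutes σ L ⟨x, hx⟩
        rw [show algebraMap L Ω ⟨x, hx⟩ = x from rfl] at this
        rw [← this]
        exact (σ.restrictNormal L ⟨x, hx⟩).2
      classical
      refine ⟨T.image fun t => σ t - t, fun y hy => ?_⟩
      obtain ⟨t, ht, f, hyt, hf⟩ := hT y hy
      have hfL : f ^ p - f ∈ L := by
        have : f ^ p - f = y - t := by
          rw [hyt]; ring
        rw [this]
        exact sub_mem hy (hT1 t ht)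
      obtain ⟨w, hwL, hw⟩ := cla_add N L hσ hp hfL (by
        intro h hh hx
        obtain ⟨h', hh'⟩ := toM h hh
        rw [← hh']
        exact hf h' fun x hx' => by rw [hh']; exact hx x hx')
      refine ⟨_, Finset.mem_image_of_mem _ ht, sub_mem (hσL t (hT1 t ht)) (hT1 t ht), w, hwL, ?_⟩
      rw [← hw]
      simp only [Function.iterate_one]
      rw [hyt, map_add]
      ring
  -- so `M` is separably closed
  apply hM
  have hsurj : Function.Surjective (algebraMap M Ω) := by
    intro x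
    have h1 : x ∈ Set.range (algebraMap M Ω) := by
      rw [InfiniteGalois.mem_range_algebraMap_iff_fixed]
      intro f
      obtain ⟨h, hh, hx⟩ := fromM f
      rw [hN, Subgroup.mem_bot] at hh
      rw [← hx, hh]
      rfl
    exact h1
  refine IsSepClosed.of_exists_root _ fun q _ hirr hsep => ?_
  obtain ⟨x, hx⟩ := IsSepClosed.exists_aeval_eq_zero Ω q
    (Polynomial.degree_pos_of_irreducible hirr).ne' hsep
  obtain ⟨y, rfl⟩ := hsurj x
  refine ⟨y, ?_⟩
  rw [Polynomial.aeval_algebraMap_apply, map_eq_zero, Polynomial.coe_aeval_eq_eval] at hx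
  exact hx

theorem soluble_normal {K Ω : Type u} [Field K] [FirstOrder.Ring.CompatibleRing K] [Infinite K]
    [Field Ω] [Algebra K Ω] [IsGalois K Ω] [IsSepClosed Ω] (hK : StableField K)
    (N : Subgroup (Ω ≃ₐ[K] Ω)) (hn : N.Normal) (hN : Group.IsSolvable N) : N = ⊥ := by
  -- the abelian case
  have key : ∀ A : Subgroup (Ω ≃ₐ[K] Ω), A.Normal → (∀ a ∈ A, ∀ b ∈ A, a * b = b * a) →
      A = ⊥ := by
    intro A hA hab
    refine mn_core hK A 2 le_rfl ?_ ?_
    · intro L p ζ σ hfd hn hp hpK hζL hζσ hζ hσ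
      refine ⟨{1}, fun y hy hy0 => ⟨1, Finset.mem_singleton_self 1, one_mem L, ?_⟩⟩
      have hpΩ : (p : Ω) ≠ 0 := by
        have := (map_ne_zero (algebraMap K Ω)).2 hpK
        rwa [map_natCast] at this
      have : NeZero (p : Ω) := ⟨hpΩ⟩
      obtain ⟨z, rfl⟩ := IsSepClosed.exists_pow_nat_eq y p
      have hz0 : z ≠ 0 := by
        rintro rfl
        exact hy0 (zero_pow hp.ne_zero)
      obtain ⟨v, hv, hv0, h⟩ := clb_mul A L hab hσ hp hζL hζσ hζ hz0 hy
      exact ⟨v, hv, hv0, by rw [one_mul, ← h]; rfl⟩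
    · intro L p σ hfd hn hp hch hσ
      refine ⟨{0}, fun y hy => ⟨0, Finset.mem_singleton_self 0, zero_mem L, ?_⟩⟩
      have hchΩ : CharP Ω p := charP_of_injective_algebraMap (algebraMap K Ω).injective p
      obtain ⟨z, hz⟩ : ∃ z : Ω, z ^ p - z = y := by
        obtain ⟨z, hz⟩ := IsSepClosed.exists_root_C_mul_X_pow_add_C_mul_X_add_C' p p 1 (-1) (-y)
          dvd_rfl hp.two_le (by norm_num)
        exact ⟨z, by linear_combination hz⟩
      subst hz
      obtain ⟨v, hv, h⟩ := clb_add A L hab hσ hp hy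
      exact ⟨v, hv, by rw [zero_add, ← h]; rfl⟩
  obtain ⟨n, hn'⟩ := hN.solvable
  -- descend along the derived series
  have hstep : ∀ i : ℕ, (derivedSeries N i = ⊥) → N = ⊥ := by
    intro i
    induction i with
    | zero =>
      intro h
      rw [derivedSeries_zero] at h
      rw [Subgroup.eq_bot_iff_forall]
      intro x hx
      have h1 : (⟨x, hx⟩ : N) ∈ (⊤ : Subgroup N) := Subgroup.mem_top _
      rw [h, Subgroup.mem_bot] at h1
      exact congrArg Subtype.val h1
    | succ i ih =>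
      intro h
      apply ih
      rw [derivedSeries_succ] at h
      have hcom : ∀ a ∈ derivedSeries N i, ∀ b ∈ derivedSeries N i, a * b = b * a := by
        intro a ha b hb
        have h1 : ⁅a, b⁆ ∈ ⁅derivedSeries N i, derivedSeries N i⁆ :=
          Subgroup.commutator_mem_commutator ha hb
        rw [h, Subgroup.mem_bot, commutatorElement_eq_one_iff_mul_comm] at h1
        exact h1
      have h2 := key ((derivedSeries N i).map N.subtype) inferInstance (by
        rintro _ ⟨a, ha, rfl⟩ _ ⟨b, hb, rfl⟩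
        rw [← map_mul, ← map_mul, hcom a ha b hb])
      rwa [Subgroup.map_eq_bot_iff_of_injective _ N.subtype_injective] at h2
  exact hstep n hn'

end Pool.Agent.H43.SG
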