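import Pool.Agent.H43.SG.Cnn
import Pool.Agent.H43.SG.Dfs
import Pool.Agent.H43.SG.Res

/-!
Row Nm (MP_9924a2_lc, about 120 lines): the norm of a Kummer extension of a stable field is not onto finitely many `p`-classes.

PROOF.  `m = p ^ r`, `N y = ∏ i ∈ range m, (s ^ i) y` (multiplicative; `s (N y) = N y` by a shift, so `N y` is in `k` by `hfix`).  `α` from `res_eig` (with
`algebraMap k L ζ`), `sα = ζ α`; `(s^i) α = ζ^i α` (induction, `s` fixes `k`), so `N α = ζ^(∑ i) α^m`, `ζ^(∑_{i<m} i) = ζ^(m (m-1)/2)`: its square is `(ζ^m)^(m-1) = 1`, so it is `ε = 1` or `-1`.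
`α ^ m` is fixed by `s` (`ζ^m = 1`): `α ^ m = a`, `a ∈ k`.  `ε` is a `p`-th power in `k` (p odd: `ε = ε^p`; p = 2: `1 = 1^2`, `-1 = i^2`).
(1) if `w : L`, `w ≠ 0` and `w ^ p ∈ k` then there are `j < p`, `c ∈ k` with `w = c * (α^(p^(r-1)))^j`: `(s w / w)^p = 1`, `ζ^(p^(r-1))` is a primitive `p`-th root of unity, so `s w = ζ^(p^(r-1) j) w`
 (`IsPrimitiveRoot.eq_pow_of_pow_eq_one`), and `w / α^(p^(r-1) j)` is fixed by `s`.  Hence `w ^ p = c ^ p * a ^ j`.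
(2) `H : Subgroup Lˣ` = the units `y` with `N y = algebraMap (w ^ p)` for some `w ≠ 0` in `k` (N multiplicative: closed under products and inverses; or `Subgroup.comap`).  `{x | ∃ u ∈ H, (u : L) = x}` is the
 set of `dfs_norm` (`N x = w^p ≠ 0` gives `x ≠ 0`), so it is in `DL e`, `e = Module.finBasis k L`.
(3) finite index: for each `t ∈ T` choose, if possible, a unit `y_t` with `N y_t = t * w^p` for some `w ≠ 0`; `S` = all `y_t * α^j`, `j < p`.  Given a unit `u`, `N u = t w^p`, `t ∈ T`: `N (u / y_t) = (w/w_t)^p ∈ k`, so by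
 (1) `N (u/y_t) = c^p a^j`, and `N (u/(y_t α^j)) = c^p a^j / (ε a)^j = c^p / ε^j`, a `p`-th power in `k`.
(4) `con_mul`: `H = ⊤`, so `N α = ε a = w^p`, `a = w'^p` with `w' ∈ k` (`ε` is a `p`-th power).  Then `α' = α^(p^(r-1))` satisfies `α'^p = α^m = a = w'^p`, so `α' = w' η` with `η^p = 1`, `η` a power of `ζ^(p^(r-1))`, so `η ∈ k` and
 `s α' = α'`.  But `s α' = ζ^(p^(r-1)) α'` and `ζ^(p^(r-1)) ≠ 1` (`IsPrimitiveRoot`, `0 < p^(r-1) < p^r`), contradiction.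
-/

set_option autoImplicit false

namespace Pool.Agent.H43.SG

open Pool.Agent.H7.ST

universe u v

/-- the norm of the automorphism `s` of order `m` -/
def Nm_N {k : Type u} [Field k] {L : Type v} [Field L] [Algebra k L] (s : L ≃ₐ[k] L) (m : ℕ) :
    L →* L where
  toFun y := ∏ i ∈ Finset.range m, (s ^ i) y
  map_one' := by simp
  map_mul' x y := by simp [Finset.prod_mul_distrib]

theorem Nm_fix {k : Type u} [Field k] {L : Type v} [Field L] [Algebra k L] (s : L ≃ₐ[k] L)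
    {m : ℕ} (hs : s ^ m = 1) (y : L) (hy : y ≠ 0) :
    s (∏ i ∈ Finset.range m, (s ^ i) y) = ∏ i ∈ Finset.range m, (s ^ i) y := by
  rw [map_prod]
  have h1 : ∏ i ∈ Finset.range m, s ((s ^ i) y) = ∏ i ∈ Finset.range m, (s ^ (i + 1)) y :=
    Finset.prod_congr rfl fun i _ => by rw [pow_succ', AlgEquiv.mul_apply]
  rw [h1]
  have h2 := Finset.prod_range_succ' (fun i => (s ^ i) y) m
  rw [Finset.prod_range_succ, hs, pow_zero] at h2
  exact (mul_right_cancel₀ hy h2).symm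

theorem Nm_eps {k : Type u} [Field k] {ζ : k} {m p : ℕ} (hp : p.Prime) (hζ : ζ ^ m = 1)
    (hi : p = 2 → ∃ i : k, i ^ 2 = -1) :
    ∃ δ : k, δ ≠ 0 ∧ δ ^ p = ζ ^ (∑ i ∈ Finset.range m, i) := by
  have h1 : ζ ^ (∑ i ∈ Finset.range m, i) * ζ ^ (∑ i ∈ Finset.range m, i) = 1 := by
    rw [← pow_add, ← mul_two, Finset.sum_range_id_mul_two, pow_mul, hζ, one_pow]
  rcases mul_self_eq_one_iff.1 h1 with h | h
  · exact ⟨1, one_ne_zero, by rw [h, one_pow]⟩
  · rw [h]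
    rcases hp.eq_two_or_odd' with h2 | h2
    · obtain ⟨i, hi'⟩ := hi h2
      refine ⟨i, ?_, by rw [h2]; exact hi'⟩
      rintro rfl
      rw [zero_pow two_ne_zero] at hi'
      exact one_ne_zero (neg_eq_zero.1 hi'.symm)
    · exact ⟨-1, neg_ne_zero.2 one_ne_zero, h2.neg_one_pow⟩

theorem nm {k : Type u} [Field k] [FirstOrder.Ring.CompatibleRing k] [Infinite k]
    (hk : StableField k) {L : Type v} [Field L] [Algebra k L] [FiniteDimensional k L]
    (s : L ≃ₐ[k] L) (hfix : ∀ x : L, s x = x → ∃ c : k, algebraMap k L c = x) {p r : ℕ}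
    (hp : p.Prime) (hr : 1 ≤ r) (hs : orderOf s = p ^ r) (ζ : k) (hζ : IsPrimitiveRoot ζ (p ^ r))
    (hi : p = 2 → ∃ i : k, i ^ 2 = -1) (T : Finset L)
    (hT : ∀ y : L, y ≠ 0 → ∃ t ∈ T, ∃ w : L, w ≠ 0 ∧
      ∏ i ∈ Finset.range (p ^ r), (s ^ i) y = t * w ^ p) : False := by
  classical
  have hnz : NeZero p := ⟨hp.ne_zero⟩
  have hm0 : 0 < p ^ r := pow_pos hp.pos r
  have hsm : s ^ (p ^ r) = 1 := by
    rw [← hs]
    exact pow_orderOf_eq_one s
  have hζ1 : ζ ^ (p ^ r) = 1 := hζ.pow_eq_one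
  have hζL1 : (algebraMap k L ζ) ^ (p ^ r) = 1 := by rw [← map_pow, hζ1, map_one]
  obtain ⟨α, hα0, hα⟩ := res_eig s hs hm0 (algebraMap k L ζ) (s.commutes ζ) hζL1
  obtain ⟨q, hq⟩ : ∃ q, q = p ^ (r - 1) := ⟨_, rfl⟩
  have hqp : p ^ r = q * p := by
    rw [hq, ← pow_succ, Nat.sub_add_cancel hr]
  have hζ' : IsPrimitiveRoot (ζ ^ q) p := hζ.pow hm0 hqp
  have hζ'L : IsPrimitiveRoot (algebraMap k L (ζ ^ q)) p :=
    hζ'.map_of_injective (algebraMap k L).injective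
  have hαi : ∀ i, (s ^ i) α = (algebraMap k L ζ) ^ i * α := by
    intro i
    induction i with
    | zero => rw [pow_zero, pow_zero, one_mul]; rfl
    | succ i ih =>
      rw [pow_succ', AlgEquiv.mul_apply, ih, map_mul, map_pow, s.commutes, hα, pow_succ]
      ring
  have hα' : s (α ^ q) = algebraMap k L (ζ ^ q) * α ^ q := by
    rw [map_pow, hα, mul_pow, map_pow]
  have hα'0 : α ^ q ≠ 0 := pow_ne_zero _ hα0
  have hαp : (α ^ q) ^ p = α ^ (p ^ r) := by rw [← pow_mul, ← hqp]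
  obtain ⟨a, ha⟩ := hfix (α ^ (p ^ r)) (by rw [map_pow, hα, mul_pow, hζL1, one_mul])
  have haL0 : algebraMap k L a ≠ 0 := by
    rw [ha]
    exact pow_ne_zero _ hα0
  have step1 : ∀ w : L, w ≠ 0 → s (w ^ p) = w ^ p →
      ∃ j < p, ∃ c : k, w = algebraMap k L c * (α ^ q) ^ j := by
    intro w hw hwp
    have h1 : (s w / w) ^ p = 1 := by
      rw [div_pow, ← map_pow, hwp, div_self (pow_ne_zero _ hw)]
    obtain ⟨j, hj, hj'⟩ := hζ'L.eq_pow_of_pow_eq_one h1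
    have h2 : s w = algebraMap k L (ζ ^ q) ^ j * w := by
      rw [hj', div_mul_cancel₀ _ hw]
    have h0 : (α ^ q) ^ j ≠ 0 := pow_ne_zero _ hα'0
    have h0' : algebraMap k L (ζ ^ q) ^ j ≠ 0 := pow_ne_zero _ (hζ'L.ne_zero hp.ne_zero)
    obtain ⟨c, hc⟩ := hfix (w / (α ^ q) ^ j) (by
      rw [map_div₀, h2, map_pow s (α ^ q) j, hα', mul_pow, mul_div_mul_left _ _ h0'])
    exact ⟨j, hj, c, by rw [hc, div_mul_cancel₀ _ h0]⟩
  obtain ⟨δ, hδ0, hδ⟩ := Nm_eps hp hζ1 hi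
  have hδL0 : algebraMap k L δ ≠ 0 := (map_ne_zero _).2 hδ0
  obtain ⟨N, hN⟩ : ∃ N : L →* L, ∀ y, N y = ∏ i ∈ Finset.range (p ^ r), (s ^ i) y :=
    ⟨Nm_N s (p ^ r), fun _ => rfl⟩
  have hNα : N α = algebraMap k L (δ ^ p * a) := by
    rw [hN, Finset.prod_congr rfl fun i _ => hαi i, Finset.prod_mul_distrib,
      Finset.prod_pow_eq_pow_sum, Finset.prod_const, Finset.card_range, ← ha, hδ, map_mul, map_pow]
  have hNfix : ∀ y : L, y ≠ 0 → s (N y) = N y := by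
    intro y hy
    rw [hN]
    exact Nm_fix s hsm y hy
  have hN0 : ∀ u : Lˣ, N u ≠ 0 := by
    intro u h0
    have h1 : N ((u : L) * ((u⁻¹ : Lˣ) : L)) = 1 := by rw [Units.mul_inv, map_one]
    rw [map_mul, h0, zero_mul] at h1
    exact zero_ne_one h1
  have hNinv : ∀ u : Lˣ, N ((u⁻¹ : Lˣ) : L) = (N u)⁻¹ := by
    intro u
    refine eq_inv_of_mul_eq_one_left ?_
    rw [← map_mul, Units.inv_mul, map_one]
  let H : Subgroup Lˣ :=
    { carrier := {u | ∃ w : k, w ≠ 0 ∧ N u = algebraMap k L (w ^ p)}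
      one_mem' := ⟨1, one_ne_zero, by rw [Units.val_one, map_one, one_pow, map_one]⟩
      mul_mem' := by
        rintro x y ⟨w, hw, h⟩ ⟨w', hw', h'⟩
        exact ⟨w * w', mul_ne_zero hw hw', by
          rw [Units.val_mul, map_mul, h, h', mul_pow, map_mul]⟩
      inv_mem' := by
        rintro x ⟨w, hw, h⟩
        exact ⟨w⁻¹, inv_ne_zero hw, by rw [hNinv, h, inv_pow, map_inv₀]⟩ }
  have hHmem : ∀ u : Lˣ, u ∈ H ↔ ∃ w : k, w ≠ 0 ∧ N u = algebraMap k L (w ^ p) :=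
    fun u => Iff.rfl
  have hHD : {x : L | ∃ u ∈ H, (u : L) = x} ∈ DL (Module.finBasis k L) := by
    have h1 : {x : L | ∃ u ∈ H, (u : L) = x} =
        {y : L | ∃ w : k, w ≠ 0 ∧ ∏ i ∈ Finset.range (p ^ r), (s ^ i) y =
          algebraMap k L (w ^ p)} := by
      ext x
      constructor
      · rintro ⟨u, hu, rfl⟩
        obtain ⟨w, hw, h⟩ := (hHmem u).1 hu
        exact ⟨w, hw, by rw [← hN, h]⟩
      · rintro ⟨w, hw, h⟩
        rw [← hN] at h
        have hx : x ≠ 0 := by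
          rintro rfl
          have h2 : N (0 : L) = 0 := by
            rw [hN]
            exact Finset.prod_eq_zero (Finset.mem_range.2 hm0) (map_zero _)
          rw [h2] at h
          exact pow_ne_zero p hw ((map_eq_zero _).1 h.symm)
        exact ⟨Units.mk0 x hx, (hHmem _).2 ⟨w, hw, h⟩, rfl⟩
    rw [h1]
    exact dfs_norm (Module.finBasis k L) s (p ^ r) p
  -- representatives
  have hrep : ∀ t : L, ∃ y : Lˣ, (∃ u : Lˣ, ∃ w : L, w ≠ 0 ∧ N u = t * w ^ p) →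
      ∃ w : L, w ≠ 0 ∧ N y = t * w ^ p := by
    intro t
    by_cases h : ∃ u : Lˣ, ∃ w : L, w ≠ 0 ∧ N u = t * w ^ p
    · obtain ⟨u, hu⟩ := h
      exact ⟨u, fun _ => hu⟩
    · exact ⟨1, fun h' => absurd h' h⟩
  choose Y hY using hrep
  have hcov : ∀ u : Lˣ, ∃ c ∈ (T ×ˢ Finset.range p).image
      (fun z : L × ℕ => Y z.1 * (Units.mk0 α hα0) ^ z.2), c⁻¹ * u ∈ H := by
    intro u
    obtain ⟨t, ht, w, hw, h⟩ := hT u u.ne_zero
    rw [← hN] at h
    obtain ⟨w', hw', h'⟩ := hY t ⟨u, w, hw, h⟩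
    have ht0 : t ≠ 0 := by
      rintro rfl
      rw [zero_mul] at h
      exact hN0 u h
    have e1 : N (((Y t)⁻¹ * u : Lˣ) : L) = (w / w') ^ p := by
      rw [Units.val_mul, map_mul, hNinv, h, h', div_pow]
      field_simp
    obtain ⟨j, hj, c, hc⟩ := step1 (w / w') (div_ne_zero hw hw') (by
      rw [← e1]
      exact hNfix _ (Units.ne_zero _))
    have hc0 : c ≠ 0 := by
      rintro rfl
      rw [map_zero, zero_mul] at hc
      exact div_ne_zero hw hw' hc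
    refine ⟨Y t * (Units.mk0 α hα0) ^ j, Finset.mem_image.2 ⟨(t, j), Finset.mem_product.2
      ⟨ht, Finset.mem_range.2 hj⟩, rfl⟩, (hHmem _).2 ⟨c / δ ^ j, div_ne_zero hc0
        (pow_ne_zero _ hδ0), ?_⟩⟩
    have e2 : (Y t * (Units.mk0 α hα0) ^ j)⁻¹ * u =
        ((Units.mk0 α hα0) ^ j)⁻¹ * ((Y t)⁻¹ * u) := by
      rw [mul_inv_rev, mul_assoc]
    have e3 : N ((((Units.mk0 α hα0) ^ j)⁻¹ : Lˣ) : L) = (algebraMap k L (δ ^ p * a) ^ j)⁻¹ := by
      rw [hNinv, Units.val_pow_eq_pow_val, Units.val_mk0, map_pow, hNα]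
    rw [e2, Units.val_mul, map_mul, e3, e1, hc, mul_pow, ← pow_mul, mul_comm j p, pow_mul, hαp,
      ← ha]
    simp only [map_mul, map_pow, map_div₀]
    have h9 : algebraMap k L a ^ j ≠ 0 := pow_ne_zero _ haL0
    have h10 : algebraMap k L δ ^ j ≠ 0 := pow_ne_zero _ hδL0
    rw [mul_pow, div_pow, ← pow_mul, ← pow_mul, mul_comm p j]
    field_simp
  have hHtop := con_mul hk (Module.finBasis k L) H hHD _ hcov
  have hαH : Units.mk0 α hα0 ∈ H := by
    rw [hHtop]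
    exact Subgroup.mem_top _
  obtain ⟨w, hw, h⟩ := (hHmem _).1 hαH
  rw [Units.val_mk0, hNα] at h
  have h1 := (algebraMap k L).injective h
  have h2 : a = (w / δ) ^ p := by
    rw [div_pow, ← h1, mul_div_cancel_left₀ _ (pow_ne_zero _ hδ0)]
  have hwδ : algebraMap k L (w / δ) ≠ 0 := (map_ne_zero _).2 (div_ne_zero hw hδ0)
  have h3 : (α ^ q / algebraMap k L (w / δ)) ^ p = 1 := by
    rw [div_pow, hαp, ← ha, h2, map_pow, div_self (pow_ne_zero _ hwδ)]
  obtain ⟨j, hj, hj'⟩ := hζ'L.eq_pow_of_pow_eq_one h3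
  have h4 : α ^ q = algebraMap k L ((ζ ^ q) ^ j * (w / δ)) := by
    rw [map_mul, map_pow, hj', div_mul_cancel₀ _ hwδ]
  have h5 : s (α ^ q) = α ^ q := by
    rw [h4, s.commutes]
  rw [hα'] at h5
  have h6 : algebraMap k L (ζ ^ q) = 1 := by
    refine mul_right_cancel₀ hα'0 ?_
    rw [h5, one_mul]
  exact hζ'L.ne_one hp.one_lt h6

end Pool.Agent.H43.SG
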